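import Mathlib

/-!
# A vanishing criterion by odd characters
-/

noncomputable section

namespace GD

/-- A function on the units with values in a rational vector space which is odd and whose sums
over the cosets of the kernels of the odd characters vanish is zero. -/
theorem char_zero {d : ℕ} [NeZero d] {V : Type*} [AddCommGroup V] [Module ℚ V]
    (D : (ZMod d)ˣ → V) (hodd : ∀ l, D (-l) = -D l)
    (h : ∀ χ : (ZMod d)ˣ →* ℂˣ, χ (-1) ≠ 1 →
      (∀ l, ∑ ν : χ.ker, D (l * ν) = 0) ∨ (∃ ν, χ ν ≠ 1 ∧ ∀ l, D (l * ν) = D l)) :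
    ∀ l, D l = 0 := by
  classical
  intro a
  rw [← Module.forall_dual_apply_eq_zero_iff ℚ]
  intro f
  let g : (ZMod d)ˣ → ℂ := fun l => ((f (D l) : ℚ) : ℂ)
  have hg : ∀ l, g l = ((f (D l) : ℚ) : ℂ) := fun l => rfl
  have key : ∀ χ : DirichletCharacter ℂ d, ∑ l : (ZMod d)ˣ, χ l * g l = 0 := by
    intro χ
    have hχ : ∀ l : (ZMod d)ˣ, χ l = (χ.toUnitHom l : ℂ) := fun l => (χ.coe_toUnitHom l).symm
    have hmul : ∀ l ν : (ZMod d)ˣ, χ ((l * ν : (ZMod d)ˣ) : ZMod d) = χ l * χ ν := by
      intro l ν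
      rw [Units.val_mul, map_mul]
    by_cases h1 : χ.toUnitHom (-1) = 1
    · have h2 : ∑ l : (ZMod d)ˣ, χ l * g l = -∑ l : (ZMod d)ˣ, χ l * g l := by
        conv_lhs => rw [← Equiv.sum_comp (Equiv.mulRight (-1 : (ZMod d)ˣ))]
        rw [← Finset.sum_neg_distrib]
        refine Finset.sum_congr rfl fun l _ => ?_
        rw [Equiv.coe_mulRight, hmul, hχ (-1), h1]
        simp only [mul_neg, mul_one, Units.val_one, hg, hodd, map_neg, Rat.cast_neg]
      exact self_eq_neg.1 h2
    · rcases h χ.toUnitHom h1 with h2 | ⟨ν, hν, h2⟩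
      · have h3 : ∀ ν : χ.toUnitHom.ker,
            ∑ l : (ZMod d)ˣ, χ l * g (l * ν) = ∑ l : (ZMod d)ˣ, χ l * g l := by
          intro ν
          conv_rhs => rw [← Equiv.sum_comp (Equiv.mulRight (ν : (ZMod d)ˣ))]
          refine Finset.sum_congr rfl fun l _ => ?_
          have h4 : χ.toUnitHom (ν : (ZMod d)ˣ) = 1 := ν.2
          rw [Equiv.coe_mulRight, hmul, hχ (ν : (ZMod d)ˣ), h4, Units.val_one, mul_one]
        have h4 : ∑ ν : χ.toUnitHom.ker, ∑ l : (ZMod d)ˣ, χ l * g (l * ν) = 0 := by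
          rw [Finset.sum_comm]
          refine Finset.sum_eq_zero fun l _ => ?_
          rw [← Finset.mul_sum]
          have h5 := congrArg (fun t => ((f t : ℚ) : ℂ)) (h2 l)
          simp only [map_sum, Rat.cast_sum, map_zero, Rat.cast_zero] at h5
          rw [h5, mul_zero]
        simp only [h3, Finset.sum_const, Finset.card_univ, nsmul_eq_mul] at h4
        rcases mul_eq_zero.1 h4 with h5 | h5
        · exfalso
          have h6 : Fintype.card χ.toUnitHom.ker ≠ 0 := Fintype.card_ne_zero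
          exact h6 (by exact_mod_cast h5)
        · exact h5
      · have h3 : ∑ l : (ZMod d)ˣ, χ l * g l = χ ν * ∑ l : (ZMod d)ˣ, χ l * g l := by
          conv_lhs => rw [← Equiv.sum_comp (Equiv.mulRight (ν : (ZMod d)ˣ))]
          rw [Finset.mul_sum]
          refine Finset.sum_congr rfl fun l _ => ?_
          rw [Equiv.coe_mulRight, hmul, hg, hg, h2]
          ring
        have h4 : χ ν ≠ 1 := by
          rw [hχ]
          intro h5
          exact hν (Units.ext h5)
        have h5 : (1 - χ ν) * ∑ l : (ZMod d)ˣ, χ l * g l = 0 := by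
          rw [sub_mul, one_mul, ← h3, sub_self]
        exact (mul_eq_zero.1 h5).resolve_left (sub_ne_zero.2 (Ne.symm h4))
  have h1 : ∑ l : (ZMod d)ˣ, ∑ χ : DirichletCharacter ℂ d,
      (χ ((a : ZMod d)⁻¹) * χ l) * g l = (d.totient : ℂ) * g a := by
    simp only [← Finset.sum_mul, DirichletCharacter.sum_char_inv_mul_char_eq ℂ a.isUnit]
    rw [Finset.sum_eq_single a]
    · simp
    · intro b _ hb
      rw [if_neg, zero_mul]
      intro h
      exact hb (Units.ext h.symm)
    · intro h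
      exact absurd (Finset.mem_univ a) h
  rw [Finset.sum_comm] at h1
  have h2 : ∑ χ : DirichletCharacter ℂ d, ∑ l : (ZMod d)ˣ,
      (χ ((a : ZMod d)⁻¹) * χ l) * g l = 0 := by
    refine Finset.sum_eq_zero fun χ _ => ?_
    simp only [mul_assoc, ← Finset.mul_sum, key χ, mul_zero]
  rw [h2] at h1
  rcases mul_eq_zero.1 h1.symm with h3 | h3
  · exfalso
    have : d.totient ≠ 0 := (Nat.totient_pos.2 (NeZero.pos d)).ne'
    exact this (by exact_mod_cast h3)
  · have h4 : ((f (D a) : ℚ) : ℂ) = 0 := h3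
    exact_mod_cast h4

end GD
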