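import Pool.Agent.H5.GD.Sub
import Pool.Agent.H5.GD.Char

/-!
# Gamma classes: formal properties
-/

noncomputable section

namespace GD

open Complex NumberField

/-- The facts on gamma values modulo algebraic numbers used in the reduction. -/
structure GammaSpec (V : Type*) [AddCommGroup V] [Module ℚ V] (cls : ℂ → V) : Prop where
  mul : ∀ x y : ℂ, x ≠ 0 → y ≠ 0 → cls (x * y) = cls x + cls y
  zero_iff : ∀ x : ℂ, x ≠ 0 → (cls x = 0 ↔ IsAlgebraic ℚ x)
  rpow : ∀ (x : ℝ) (q : ℚ), 0 < x → cls ((x ^ (q : ℝ) : ℝ) : ℂ) = q • cls (x : ℂ)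
  ko : ∀ (d : ℕ) [NeZero d] (ε : ZMod d → ℚ),
    (∀ l : (ZMod d)ˣ, ∑ a, ε a * (((l : ZMod d) * a).val : ℚ) = 0) →
    ∀ l : (ZMod d)ˣ, ∑ a : ZMod d, ε (a * ((l⁻¹ : (ZMod d)ˣ) : ZMod d)) •
      cls (Real.Gamma (1 - (a.val : ℝ) / d) : ℝ) = 0
  ex : ∀ (d : ℕ) [NeZero d], 3 ≤ d → ∀ (m : ℚ) (p : (ZMod d)ˣ → ℚ),
    (∀ l, p l + p (-l) = m) → ∃ ε : ZMod d → ℚ, ∀ l : (ZMod d)ˣ,
      (d : ℚ) * p l = ∑ a, ε a * (((l : ZMod d) * a).val : ℚ)

/-- The sums `∑ ε(b) ψ(⟨b l⟩ / d)`. -/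
def tsum' {M : Type*} [AddCommGroup M] [Module ℚ M] (d : ℕ) [NeZero d] (ψ : ℚ → M)
    (ε : ZMod d → ℚ) (l : (ZMod d)ˣ) : M :=
  ∑ b : ZMod d, ε b • ψ (((b * (l : ZMod d)).val : ℚ) / d)

section tsum

variable {M : Type*} [AddCommGroup M] [Module ℚ M] {d : ℕ} [NeZero d] (ψ : ℚ → M)

theorem tsum_add (ε ε' : ZMod d → ℚ) (l : (ZMod d)ˣ) :
    tsum' d ψ (fun a => ε a + ε' a) l = tsum' d ψ ε l + tsum' d ψ ε' l := by
  simp [tsum', add_smul, Finset.sum_add_distrib]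

theorem tsum_sum {α : Type*} (s : Finset α) (ε : α → ZMod d → ℚ) (l : (ZMod d)ˣ) :
    tsum' d ψ (fun a => ∑ i ∈ s, ε i a) l = ∑ i ∈ s, tsum' d ψ (ε i) l := by
  simp only [tsum', Finset.sum_smul]
  rw [Finset.sum_comm]

theorem tsum_sub (ε ε' : ZMod d → ℚ) (l : (ZMod d)ˣ) :
    tsum' d ψ (fun a => ε a - ε' a) l = tsum' d ψ ε l - tsum' d ψ ε' l := by
  simp [tsum', sub_smul, Finset.sum_sub_distrib]

theorem tsum_shift (ε : ZMod d → ℚ) (l ν : (ZMod d)ˣ) :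
    tsum' d ψ (fun a => ε (a * ((ν⁻¹ : (ZMod d)ˣ) : ZMod d))) l = tsum' d ψ ε (l * ν) := by
  unfold tsum'
  rw [← Equiv.sum_comp (Units.mulRight ν)]
  refine Finset.sum_congr rfl fun b _ => ?_
  simp only [Units.mulRight_apply]
  rw [mul_assoc b, Units.mul_inv, mul_one, Units.val_mul]
  congr 5
  ring

/-- The alternative form with `ε(a l⁻¹)`. -/
theorem tsum_eq (ε : ZMod d → ℚ) (l : (ZMod d)ˣ) :
    ∑ a : ZMod d, ε (a * ((l⁻¹ : (ZMod d)ˣ) : ZMod d)) • ψ ((a.val : ℚ) / d) = tsum' d ψ ε l := by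
  unfold tsum'
  rw [← Equiv.sum_comp (Units.mulRight l)]
  refine Finset.sum_congr rfl fun b _ => ?_
  simp only [Units.mulRight_apply]
  rw [mul_assoc b, Units.mul_inv, mul_one]

/-- Sum over opposite units. -/
theorem tsum_neg (ε : ZMod d → ℚ) (l : (ZMod d)ˣ) (s : M) (h0 : ψ 0 = 0)
    (hs : ∀ a : ZMod d, a ≠ 0 → ψ ((a.val : ℚ) / d) + ψ (((-a).val : ℚ) / d) = s) :
    tsum' d ψ ε l + tsum' d ψ ε (-l) = (∑ a ∈ Finset.univ.erase (0 : ZMod d), ε a) • s := by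
  unfold tsum'
  rw [← Finset.sum_add_distrib, Finset.sum_smul,
    ← Finset.add_sum_erase Finset.univ _ (Finset.mem_univ (0 : ZMod d))]
  rw [zero_mul, zero_mul, ZMod.val_zero, Nat.cast_zero, zero_div, h0, smul_zero, add_zero,
    zero_add]
  refine Finset.sum_congr rfl fun b hb => ?_
  have hb' : b ≠ 0 := (Finset.mem_erase.1 hb).1
  rw [← smul_add]
  congr 1
  have h1 : b * (l : ZMod d) ≠ 0 := by
    intro h
    apply hb'
    have := congrArg (fun t => t * ((l⁻¹ : (ZMod d)ˣ) : ZMod d)) h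
    simpa [mul_assoc] using this
  have h2 := hs _ h1
  rw [← h2, Units.val_neg, mul_neg]

end tsum

/-- Inflation of `ε` from level `d` to level `d * k`. -/
def infl (d k : ℕ) (ε : ZMod d → ℚ) : ZMod (d * k) → ℚ := fun a =>
  if k ∣ a.val then ε ((a.val / k : ℕ) : ZMod d) else 0

theorem tsum_infl {M : Type*} [AddCommGroup M] [Module ℚ M] {d k : ℕ} [NeZero d] [NeZero k]
    [NeZero (d * k)] (ψ : ℚ → M)
    (ε : ZMod d → ℚ) (l : (ZMod (d * k))ˣ) :
    tsum' (d * k) ψ (infl d k ε) l = tsum' d ψ ε (ZMod.unitsMap (Dvd.intro k rfl) l) := by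
  classical
  unfold tsum'
  have hk : 0 < k := NeZero.pos k
  have hd : 0 < d := NeZero.pos d
  -- the embedding
  let j : ZMod d → ZMod (d * k) := fun a => ((a.val * k : ℕ) : ZMod (d * k))
  have hjval : ∀ a, (j a).val = a.val * k := by
    intro a
    rw [ZMod.val_natCast, Nat.mod_eq_of_lt]
    exact Nat.mul_lt_mul_of_pos_right (ZMod.val_lt a) hk
  have hjinj : Function.Injective j := by
    intro a b hab
    have h1 := congrArg ZMod.val hab
    rw [hjval, hjval] at h1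
    exact ZMod.val_injective d (Nat.eq_of_mul_eq_mul_right hk h1)
  have h1 : ∑ b : ZMod (d * k), infl d k ε b • ψ (((b * (l : ZMod (d * k))).val : ℚ) / (d * k : ℕ))
      = ∑ a : ZMod d, infl d k ε (j a) • ψ (((j a * (l : ZMod (d * k))).val : ℚ) / (d * k : ℕ)) := by
    rw [← Finset.sum_image (s := Finset.univ) (g := j)
      (f := fun b => infl d k ε b • ψ (((b * (l : ZMod (d * k))).val : ℚ) / (d * k : ℕ)))
      (fun a _ b _ h => hjinj h)]
    symm
    apply Finset.sum_subset (Finset.subset_univ _)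
    intro b _ hb
    have : ¬ k ∣ b.val := by
      rintro ⟨t, ht⟩
      apply hb
      rw [Finset.mem_image]
      have ht' : t < d := by
        have h2 := ZMod.val_lt b
        rw [ht, mul_comm] at h2
        exact lt_of_mul_lt_mul_right h2 (Nat.zero_le _)
      refine ⟨(t : ZMod d), Finset.mem_univ _, ?_⟩
      apply ZMod.val_injective
      rw [hjval, ZMod.val_natCast, Nat.mod_eq_of_lt ht', ht, mul_comm]
    simp [infl, this]
  rw [h1]
  refine Finset.sum_congr rfl fun a _ => ?_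
  have h2 : infl d k ε (j a) = ε a := by
    unfold infl
    rw [hjval, if_pos (Dvd.intro_left _ rfl), Nat.mul_div_cancel _ hk, ZMod.natCast_zmod_val]
  have h3 : (j a * (l : ZMod (d * k))).val
      = (a * ((ZMod.unitsMap (Dvd.intro k rfl) l : (ZMod d)ˣ) : ZMod d)).val * k := by
    rw [ZMod.val_mul, hjval, ZMod.val_mul, ZMod.unitsMap_val]
    have h4 : (ZMod.cast (l : ZMod (d * k)) : ZMod d).val = (l : ZMod (d * k)).val % d := by
      rw [ZMod.cast_eq_val, ZMod.val_natCast]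
    rw [h4, mul_right_comm, Nat.mul_mod_mul_right, Nat.mul_mod_mod]
  rw [h2, h3]
  congr 2
  push_cast
  rw [mul_div_mul_right]
  exact_mod_cast hk.ne'

end GD
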