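import Pool.Agent.H5.GD.Final
import Pool.Agent.H11.GD.Level

/-!
# The gamma facts: instance
-/

noncomputable section

namespace GD

theorem gammaSpec : GammaSpec Pool.Agent.H11.GD.V Pool.Agent.H11.GD.cls where
  mul := fun _ _ hx hy => Pool.Agent.H11.GD.cls_mul hx hy
  zero_iff := fun _ hx => Pool.Agent.H11.GD.cls_eq_zero_iff hx
  rpow := fun _ q hx => Pool.Agent.H11.GD.cls_rpow hx q
  ko := by
    intro d _ ε h l
    have h1 := Pool.Agent.H11.GD.gam_zero ε (fun l => h l) l
    rw [← h1]
    unfold Pool.Agent.H11.GD.gam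
    refine Finset.sum_congr rfl fun a _ => ?_
    congr 1
    unfold Pool.Agent.H11.GD.gval
    rw [← Complex.Gamma_ofReal]
    push_cast
    rfl
  ex := by
    intro d _ hd m p hp
    obtain ⟨ε, hε⟩ := Pool.Agent.H11.GD.exists_eps (by omega) p m hp
    exact ⟨ε, fun l => (hε l).symm⟩

end GD
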