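import Pool.Agent.H5.GD.Core

/-!
# The equivalence at the level of admissible triples
-/

noncomputable section

namespace GD

open Complex NumberField

/-- Complex multiplication: for every imaginary cyclic field and every CM type the class contains
a structure of weight one with an admissible triple of this type. -/
def HasCM (C : Str → Prop) : Prop :=
  ∀ (K : Type) [Field K] [NumberField K] (e : K →+* ℂ), (∃ d, LiesIn e d) →
    (∃ x, (e x).im ≠ 0) → IsGalois ℚ K → IsCyclic (K ≃ₐ[ℚ] K) →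
    ∀ Φ : Set (K →+* ℂ), (∀ σ, σ ∈ Φ ↔ ComplexEmbedding.conjugate σ ∉ Φ) →
      ∃ S, C S ∧ S.wt = 1 ∧ ∃ A : Adm S K,
        (∀ σ ∈ Φ, A.line σ ≤ S.hodge 1) ∧ (∀ σ, σ ∉ Φ → A.line σ ≤ S.hodge 0)

/-- The Gross-Deligne relation for the structures of weight one in the class and imaginary
cyclic fields. -/
def WeightOne (C : Str → Prop) : Prop :=
  ∀ S, C S → S.wt = 1 → ∀ (K : Type) [Field K] [NumberField K] (e : K →+* ℂ),
    (∃ d, LiesIn e d) → (∃ x, (e x).im ≠ 0) → IsGalois ℚ K → IsCyclic (K ≃ₐ[ℚ] K) →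
    ∀ A : Adm S K, Relation A e

/-- For imaginary cyclic fields, the rational classes of an admissible triple all of whose lines
are of type `(r, r)` are, up to the factor `(2 π i) ^ r`, de Rham classes. -/
def HodgeDeRham (C : Str → Prop) : Prop :=
  ∀ S, C S → ∀ (K : Type) [Field K] [NumberField K] (e : K →+* ℂ), (∃ d, LiesIn e d) →
    (∃ x, (e x).im ≠ 0) → IsGalois ℚ K → IsCyclic (K ≃ₐ[ℚ] K) →
    ∀ (A : Adm S K) (r : ℕ), S.wt = 2 * r → A.HasType (fun _ => r) →
      ∀ h ∈ A.H, (2 * Real.pi * I) ^ r • h ∈ S.D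

variable {V : Type*} [AddCommGroup V] [Module ℚ V] {cls : ℂ → V}

theorem liesIn_conductor {F : Type} [Field F] {e : F →+* ℂ} (h : ∃ d, LiesIn e d) :
    LiesIn e (conductor e) :=
  Nat.sInf_mem h

theorem sum_erase (d : ℕ) [NeZero d] (ε : ZMod d → ℚ) (l : (ZMod d)ˣ) :
    ∑ a ∈ Finset.univ.erase (0 : ZMod d), ε a * (((l : ZMod d) * a).val : ℚ)
      = ∑ a, ε a * (((l : ZMod d) * a).val : ℚ) := by
  rw [← Finset.add_sum_erase Finset.univ _ (Finset.mem_univ (0 : ZMod d))]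
  simp

theorem relationAt_to {S : Str} {F : Type} [Field F] [NumberField F] (hΓ : GammaSpec V cls)
    {A : Adm S F} {f : Fam S F} (hA : Attached A f) {e : F →+* ℂ} {d : ℕ} [NeZero d]
    (he : ∀ x, e x ∈ cyc d) (h : RelationAt A e d) : RelAll cls d e he f.c f.p := by
  intro ε hε l
  have hT : A.HasType f.p := by
    intro σ w hw
    obtain ⟨t, rfl⟩ := hA.line_eq hw
    exact Submodule.smul_mem _ _ (f.hdg σ)
  obtain ⟨z, hz⟩ := hA.exists_period (phi e he l)
  have h1 := h f.p hT ε (by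
    intro l' σ hσ
    rw [isPhi_iff e he] at hσ
    subst hσ
    rw [sum_erase, ← hε, tsum_id]) l (phi e he l) ((isPhi_iff e he l _).2 rfl) z hz
  have h2 := hA.period_sim hz
  rw [← cls_of_sim hΓ h2, cls_of_sim hΓ h1, cls_gammaProd hΓ]

theorem relationAt_of {S : Str} {F : Type} [Field F] [NumberField F] (hΓ : GammaSpec V cls)
    {A : Adm S F} {f : Fam S F} (hA : Attached A f) {e : F →+* ℂ} {d : ℕ} [NeZero d]
    (he : ∀ x, e x ∈ cyc d) (h : RelAll cls d e he f.c f.p) : RelationAt A e d := by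
  intro p hp ε hε l σ hσ z hz
  have hpf : ∀ σ, f.p σ = p σ := fun σ =>
    S.hodge_eq (f.v_ne σ) (f.hdg σ) (hp σ (hA.line σ))
  have hd : (d : ℚ) ≠ 0 := by exact_mod_cast NeZero.ne d
  rw [isPhi_iff e he] at hσ
  subst hσ
  have h1 := h ε (by
    intro l
    have h2 := hε l (phi e he l) ((isPhi_iff e he l _).2 rfl)
    rw [sum_erase, ← tsum_id] at h2
    rw [hpf]
    exact (mul_left_cancel₀ hd h2).symm) l
  have h2 := hA.period_sim hz
  refine h2.trans (sim_of_cls hΓ (f.c_ne _) (gammaProd_ne d ε l) ?_)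
  rw [h1, cls_gammaProd hΓ]

theorem three_le {K : Type} [Field K] [NumberField K] {e : K →+* ℂ} {d : ℕ} [NeZero d]
    (he : ∀ x, e x ∈ cyc d) (him : ∃ x, (e x).im ≠ 0) : 3 ≤ d := by
  by_contra hlt
  push Not at hlt
  have hd0 : 0 < d := NeZero.pos d
  have h1 : (-1 : (ZMod d)ˣ) = 1 := by
    have hd' : d = 1 ∨ d = 2 := by omega
    rcases hd' with rfl | rfl
    · exact Subsingleton.elim _ _
    · exact Subsingleton.elim _ _
  have h2 := conj_phi e he 1
  rw [h1, phi_one] at h2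
  obtain ⟨x, hx⟩ := him
  apply hx
  have h3 := congrArg (fun t => t x) h2
  exact Complex.conj_eq_iff_im.1 h3

/-- Recover the de Rham property of the eigenvectors from that of the rational vectors, and
conversely. -/
theorem fam_dR_iff {S : Str} {F : Type} [Field F] [NumberField F] {A : Adm S F} {f : Fam S F}
    (hA : Attached A f) (t : ℂ) :
    (∀ h ∈ A.H, t • h ∈ S.D) ↔ ∀ σ, t • f.v σ ∈ S.D := by
  constructor
  · intro h σ
    rw [f.expand σ, Finset.smul_sum]
    refine Submodule.sum_mem _ fun i _ => ?_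
    rw [smul_comm]
    exact S.D_smul (emb_alg F σ _) (h _ ((hA.mem _).2 ⟨bas F i, rfl⟩))
  · intro h w hw
    obtain ⟨x, rfl⟩ := (hA.mem w).1 hw
    rw [Finset.smul_sum]
    refine Submodule.sum_mem _ fun σ _ => ?_
    rw [smul_comm]
    exact S.D_smul (emb_alg F σ x) (h σ)

theorem two_pi_I_ne (r : ℕ) : (2 * (Real.pi : ℂ) * I) ^ r ≠ 0 := by
  apply pow_ne_zero
  simp [Real.pi_ne_zero]

/-- Relation for realised data from the relation for triples. -/
theorem relAll_of_relation (hΓ : GammaSpec V cls) {C : Str → Prop} {K : Type} [Field K]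
    [NumberField K] {e : K →+* ℂ} {d : ℕ} [NeZero d] (he : ∀ x, e x ∈ cyc d)
    (him : ∃ x, (e x).im ≠ 0) {m : ℕ} {c : (K →+* ℂ) → ℂ} {p : (K →+* ℂ) → ℕ}
    (h : ∀ S, C S → ∀ A : Adm S K, Relation A e) (hR : Rz C K m c p) :
    RelAll cls d e he c p := by
  have hex : ∃ d, LiesIn e d := ⟨d, NeZero.pos d, he⟩
  have hc := liesIn_conductor hex
  have : NeZero (conductor e) := ⟨hc.1.ne'⟩
  obtain ⟨S, hS, rfl, f, rfl, rfl⟩ := hR
  obtain ⟨A, hA, -⟩ := f.exists_adm
  have h1 := relationAt_to hΓ hA hc.2 (h S hS A (conductor e) rfl)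
  exact h1.change hΓ (three_le hc.2 him) he (fun σ => f.p_add σ)

/-- Reduction to the imaginary cyclic subfields of `F`. -/
theorem cyclic_subfields (hΓ : GammaSpec V cls) (C : Str → Prop) (hK : Kunneth C)
    (hP : ∀ S, C S → Nonempty (Pol S)) (F : Type) [Field F] [NumberField F] (e : F →+* ℂ)
    (hex : ∃ d, LiesIn e d)
    (hyp : ∀ (K : Type) [Field K] [NumberField K] (i : K →+* F), (∃ x, (e (i x)).im ≠ 0) →
      IsGalois ℚ K → IsCyclic (K ≃ₐ[ℚ] K) → ∀ S, C S → ∀ A : Adm S K, Relation A (e.comp i)) :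
    ∀ S, C S → ∀ A : Adm S F, Relation A e := by
  intro S hS A d _ hd
  have hc := liesIn_conductor hex
  rw [← hd] at hc
  intro p hp
  obtain ⟨f, hf, hfp⟩ := A.exists_fam p hp
  have h1 : RelAll cls d e hc.2 f.c f.p := by
    refine core_cyclic hΓ hK hP e hc.2 ?_ ⟨S, hS, rfl, f, rfl, rfl⟩
    intro K _ _ i him hGal hcyc m c p hR
    exact relAll_of_relation hΓ (fun x => hc.2 (i x)) him (hyp K i him hGal hcyc) hR
  exact relationAt_of hΓ hf hc.2 h1 p hp

/-- The relation for an imaginary field from complex multiplication and the de Rham property. -/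
theorem relation_of_tate (hΓ : GammaSpec V cls) {C : Str → Prop} (hK : Kunneth C) {K : Type}
    [Field K] [NumberField K] (e : K →+* ℂ) (hex : ∃ d, LiesIn e d) (him : ∃ x, (e x).im ≠ 0)
    (hCM : ∀ Φ : Set (K →+* ℂ), (∀ σ, σ ∈ Φ ↔ ComplexEmbedding.conjugate σ ∉ Φ) →
      ∃ S, C S ∧ S.wt = 1 ∧ ∃ A : Adm S K,
        (∀ σ ∈ Φ, A.line σ ≤ S.hodge 1) ∧ (∀ σ, σ ∉ Φ → A.line σ ≤ S.hodge 0) ∧ Relation A e)
    (hT : ∀ S, C S → ∀ (A : Adm S K) (r : ℕ), S.wt = 2 * r → A.HasType (fun _ => r) →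
      ∀ h ∈ A.H, (2 * Real.pi * I) ^ r • h ∈ S.D) :
    ∀ S, C S → ∀ A : Adm S K, Relation A e := by
  classical
  intro S hS A d _ hd
  have hc := liesIn_conductor hex
  rw [← hd] at hc
  have hc' := hc.2
  intro p hp
  obtain ⟨f, hf, hfp⟩ := A.exists_fam p hp
  have h1 : RelAll cls d e hc.2 f.c f.p := by
    refine core_tate hΓ hK e hc.2 him (three_le hc.2 him) ?_ ?_ ⟨S, hS, rfl, f, rfl, rfl⟩
    · intro Φ hΦ
      obtain ⟨S, hS, hwt, A, hA1, hA0, hrel⟩ := hCM Φ hΦ
      have hTy : A.HasType (typ Φ) := by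
        intro σ
        unfold typ
        by_cases hσ : σ ∈ Φ
        · rw [if_pos hσ]
          exact hA1 σ hσ
        · rw [if_neg hσ]
          exact hA0 σ hσ
      obtain ⟨f, hf, hfp⟩ := A.exists_fam (typ Φ) hTy
      have h1 := relationAt_to hΓ hf hc.2 (hrel d hd)
      rw [hfp] at h1
      exact ⟨f.c, ⟨S, hS, hwt, f, rfl, hfp⟩, h1⟩
    · intro r c hR σ
      obtain ⟨S, hS, hwt, f, rfl, hfp⟩ := hR
      obtain ⟨A, hA, hTy⟩ := f.exists_adm
      rw [hfp] at hTy
      have h2 := (fam_dR_iff hA _).1 (hT S hS A r hwt hTy) σ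
      have h3 := S.D_ratio (f.v_ne σ) (f.c_ne σ) (f.dR σ) h2
      have h4 : Sim ((2 * (Real.pi : ℂ) * I) ^ r) (f.c σ) := ⟨two_pi_I_ne r, f.c_ne σ, h3⟩
      rw [← cls_of_sim hΓ h4, cls_two_pi_I hΓ]
  exact relationAt_of hΓ hf hc.2 h1 p hp

/-- The equivalence. -/
theorem main_iff (hΓ : GammaSpec V cls) (C : Str → Prop) (hK : Kunneth C)
    (hP : ∀ S, C S → Nonempty (Pol S)) (hCM : HasCM C) :
    GrossDeligne C ↔ HodgeDeRham C ∧ WeightOne C := by
  constructor
  · intro h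
    refine ⟨?_, fun S hS _ K _ _ e hex _ _ _ A => h S hS K e hex A⟩
    intro S hS K _ _ e hex him hGal hcyc A r hwt hT
    have hc := liesIn_conductor hex
    have : NeZero (conductor e) := ⟨hc.1.ne'⟩
    obtain ⟨f, hf, hfp⟩ := A.exists_fam _ hT
    have h1 := relationAt_to hΓ hf hc.2 (h S hS K e hex A (conductor e) rfl)
    have h3 := three_le hc.2 him
    obtain ⟨ε, hε⟩ := ex' hΓ (conductor e) h3 (2 * r) (fun _ => (r : ℚ)) (fun _ => by ring)
    rw [fam_dR_iff hf]
    intro σ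
    obtain ⟨l, rfl⟩ := exists_phi e hc.2 σ
    have h4 := h1 ε (fun l => by rw [hε, hfp]) l
    rw [gam_const hΓ _ r ε hε (by omega) l, ← cls_two_pi_I hΓ] at h4
    have h5 := (sim_of_cls hΓ (f.c_ne _) (two_pi_I_ne r) h4).symm
    have h6 := S.D_smul h5.2.2 (f.dR (phi e hc.2 l))
    rwa [smul_smul, div_mul_cancel₀ _ h5.2.1] at h6
  · rintro ⟨h, hW⟩ S hS F _ _ e hex A
    refine cyclic_subfields hΓ C hK hP F e hex ?_ S hS A
    intro K _ _ i him hGal hcyc
    have hexK : ∃ d, LiesIn (e.comp i) d := by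
      obtain ⟨d, hd, h⟩ := hex
      exact ⟨d, hd, fun x => h (i x)⟩
    refine relation_of_tate hΓ hK (e.comp i) hexK him ?_
      (fun S hS A r => h S hS K (e.comp i) hexK him hGal hcyc A r)
    intro Φ hΦ
    obtain ⟨S, hS, hwt, A, h1, h0⟩ := hCM K (e.comp i) hexK him hGal hcyc Φ hΦ
    exact ⟨S, hS, hwt, A, h1, h0, hW S hS hwt K (e.comp i) hexK him hGal hcyc A⟩

/-- The relation holds for totally real fields. -/
theorem real_case (hΓ : GammaSpec V cls) {S : Str} (hP : Nonempty (Pol S)) {F : Type} [Field F]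
    [NumberField F] (e : F →+* ℂ) (hex : ∃ d, LiesIn e d) (hreal : ∀ x, (e x).im = 0)
    (A : Adm S F) : Relation A e := by
  intro d _ hd
  have hc := liesIn_conductor hex
  rw [← hd] at hc
  intro p hp
  obtain ⟨f, hf, hfp⟩ := A.exists_fam p hp
  refine relationAt_of hΓ hf hc.2 ?_ p hp
  intro ε hε l
  obtain ⟨P⟩ := hP
  have hconj : ∀ l, phi e hc.2 (-l) = phi e hc.2 l := by
    intro l
    have h1 : phi e hc.2 (-1) = e := by
      have h2 := conj_phi e hc.2 1
      rw [phi_one] at h2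
      rw [← h2]
      ext x
      exact Complex.conj_eq_iff_im.2 (hreal x)
    have := phi_mul_of_eq e hc.2 l (-1) h1
    rwa [mul_neg, mul_one] at this
  have h1 : tsum' d (gam cls) ε (-l) = tsum' d (gam cls) ε l := by
    have h2 : (-l) = l * (-1) := by rw [mul_neg, mul_one]
    rw [h2, ← tsum_shift]
    apply ko' hΓ
    intro l'
    rw [tsum_shift, hε, hε, mul_neg, mul_one, hconj]
  have h2 := gam_odd hΓ d S.wt ε l (by
    rw [hε, hε, ← conj_phi]
    exact_mod_cast f.p_add _)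
  have h3 := cls_of_sim hΓ (f.pol P (phi e hc.2 l))
  rw [conj_phi, hconj, hΓ.mul _ _ (f.c_ne _) (f.c_ne _), cls_two_pi_I hΓ, ← h2, h1] at h3
  have h4 : (2 : ℚ) • (cls (f.c (phi e hc.2 l)) - tsum' d (gam cls) ε l) = 0 := by
    rw [smul_sub, two_smul, two_smul, h3, sub_self]
  rcases smul_eq_zero.1 h4 with h5 | h5
  · norm_num at h5
  · exact sub_eq_zero.1 h5

end GD
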