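import Pool.Agent.H5.GD.Final

/-!
# Periods which depend only on the Hodge type
-/

noncomputable section

namespace GD

open Complex NumberField

variable {C : Str → Prop} {V : Type*} [AddCommGroup V] [Module ℚ V] {cls : ℂ → V}

theorem Rz.sum_cls (hΓ : GammaSpec V cls) (hP : ∀ S, C S → Nonempty (Pol S)) {K : Type} [Field K]
    [NumberField K] {m : ℕ} {c : (K →+* ℂ) → ℂ} {p : (K →+* ℂ) → ℕ} (h : Rz C K m c p)
    (σ : K →+* ℂ) :
    cls (c σ) + cls (c (ComplexEmbedding.conjugate σ)) = (m : ℚ) • cls ((Real.pi : ℝ) : ℂ) := by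
  rw [← hΓ.mul _ _ (h.c_ne _) (h.c_ne _), ← cls_two_pi_I hΓ]
  exact cls_of_sim hΓ (h.pol hP σ)

/-- Twist by complex conjugation. -/
theorem Rz.conj {K : Type} [Field K] [NumberField K] (g : K ≃+* K)
    (hg : ∀ (σ : K →+* ℂ) (x : K), σ (g x) = (starRingEnd ℂ) (σ x)) {m : ℕ}
    {c : (K →+* ℂ) → ℂ} {p : (K →+* ℂ) → ℕ} (h : Rz C K m c p) :
    Rz C K m (fun σ => c (ComplexEmbedding.conjugate σ))
      (fun σ => p (ComplexEmbedding.conjugate σ)) := by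
  have hconj : ∀ σ : K →+* ℂ, σ.comp g.toRingHom = ComplexEmbedding.conjugate σ := by
    intro σ
    ext x
    exact hg σ x
  have h1 := h.twist g
  simpa only [hconj] using h1

/-- Hodge classes being de Rham classes implies that periods depend only on the type. -/
theorem typeOnly_of (hΓ : GammaSpec V cls) (hK : Kunneth C) (hP : ∀ S, C S → Nonempty (Pol S))
    {K : Type} [Field K] [NumberField K] (g : K ≃+* K)
    (hg : ∀ (σ : K →+* ℂ) (x : K), σ (g x) = (starRingEnd ℂ) (σ x))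
    (h : ∀ S, C S → ∀ (A : Adm S K) (r : ℕ), S.wt = 2 * r → A.HasType (fun _ => r) →
      ∀ w ∈ A.H, (2 * Real.pi * I) ^ r • w ∈ S.D) :
    ∀ S S', C S → C S' → ∀ (A : Adm S K) (A' : Adm S' K) (p : (K →+* ℂ) → ℕ),
      A.HasType p → A'.HasType p → ∀ σ z z', A.IsPeriod σ z → A'.IsPeriod σ z' → Sim z z' := by
  intro S S' hS hS' A A' p hA hA' σ z z' hz hz'
  obtain ⟨f, hf, hfp⟩ := A.exists_fam p hA
  obtain ⟨f', hf', hfp'⟩ := A'.exists_fam p hA'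
  have hwt : S.wt = S'.wt := by
    rw [← f.p_add σ, ← f'.p_add σ, hfp, hfp']
  have hR : Rz C K S.wt f.c p := ⟨S, hS, rfl, f, rfl, hfp⟩
  have hR' : Rz C K S.wt f'.c p := ⟨S', hS', hwt.symm, f', rfl, hfp'⟩
  have hT := Rz.mul hK hR (hR'.conj g hg)
  have hconst : (fun σ => p σ + p (ComplexEmbedding.conjugate σ)) = fun _ => S.wt := by
    funext σ
    exact hR.p_add σ
  rw [hconst, ← two_mul] at hT
  obtain ⟨R, hRC, hRwt, t, htc, htp⟩ := hT
  obtain ⟨B, hB, hBT⟩ := t.exists_adm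
  rw [htp] at hBT
  have h2 := (fam_dR_iff hB _).1 (h R hRC B S.wt hRwt hBT) σ
  have h3 := R.D_ratio (t.v_ne σ) (t.c_ne σ) (t.dR σ) h2
  have h4 : Sim ((2 * (Real.pi : ℂ) * I) ^ S.wt) (t.c σ) := ⟨two_pi_I_ne _, t.c_ne σ, h3⟩
  have h5 := cls_of_sim hΓ h4
  rw [htc, cls_two_pi_I hΓ, hΓ.mul _ _ (f.c_ne _) (f'.c_ne _), ← hR'.sum_cls hΓ hP σ] at h5
  have h6 := add_right_cancel h5
  exact (hf.period_sim hz).trans ((sim_of_cls hΓ (f.c_ne _) (f'.c_ne _) h6.symm).trans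
    (hf'.period_sim hz').symm)

/-- Periods depending only on the type implies that Hodge classes are de Rham classes. -/
theorem hodgeDeRham_of (hΓ : GammaSpec V cls) (hK : Kunneth C)
    (hP : ∀ S, C S → Nonempty (Pol S)) {K : Type} [Field K] [NumberField K] (g : K ≃+* K)
    (hg : ∀ (σ : K →+* ℂ) (x : K), σ (g x) = (starRingEnd ℂ) (σ x))
    (h : ∀ S S', C S → C S' → ∀ (A : Adm S K) (A' : Adm S' K) (p : (K →+* ℂ) → ℕ),
      A.HasType p → A'.HasType p → ∀ σ z z', A.IsPeriod σ z → A'.IsPeriod σ z' → Sim z z') :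
    ∀ S, C S → ∀ (A : Adm S K) (r : ℕ), S.wt = 2 * r → A.HasType (fun _ => r) →
      ∀ w ∈ A.H, (2 * Real.pi * I) ^ r • w ∈ S.D := by
  intro S hS A r hwt hT
  obtain ⟨f, hf, hfp⟩ := A.exists_fam _ hT
  rw [fam_dR_iff hf]
  intro σ
  have hR : Rz C K (2 * r) f.c (fun _ => r) := ⟨S, hS, hwt, f, rfl, hfp⟩
  obtain ⟨T, hTC, hTwt, t, htc, htp⟩ := Rz.mul hK hR hR
  obtain ⟨T', hTC', hTwt', t', htc', htp'⟩ := Rz.mul hK hR (hR.conj g hg)
  obtain ⟨B, hB, hBT⟩ := t.exists_adm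
  obtain ⟨B', hB', hBT'⟩ := t'.exists_adm
  rw [htp] at hBT
  rw [htp'] at hBT'
  obtain ⟨z, hz⟩ := hB.exists_period σ
  obtain ⟨z', hz'⟩ := hB'.exists_period σ
  have h1 := h T T' hTC hTC' B B' _ hBT hBT' σ z z' hz hz'
  have h2 := ((hB.period_sim hz).symm.trans h1).trans (hB'.period_sim hz')
  have h3 := cls_of_sim hΓ h2
  rw [htc, htc', hΓ.mul _ _ (f.c_ne _) (f.c_ne _), hΓ.mul _ _ (f.c_ne _) (f.c_ne _),
    hR.sum_cls hΓ hP σ] at h3
  have h4 : (2 : ℚ) • (cls (f.c σ) - (r : ℚ) • cls ((Real.pi : ℝ) : ℂ)) = 0 := by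
    rw [smul_sub, two_smul, h3, smul_smul]
    push_cast
    exact sub_self _
  have h5 : cls (f.c σ) = (r : ℚ) • cls ((Real.pi : ℝ) : ℂ) := by
    rcases smul_eq_zero.1 h4 with h5 | h5
    · norm_num at h5
    · exact sub_eq_zero.1 h5
  rw [← cls_two_pi_I hΓ] at h5
  have h6 := (sim_of_cls hΓ (f.c_ne _) (two_pi_I_ne r) h5).symm
  have h7 := S.D_smul h6.2.2 (f.dR σ)
  rwa [smul_smul, div_mul_cancel₀ _ h6.2.1] at h7

/-- The equivalence. -/
theorem typeOnly_iff (hΓ : GammaSpec V cls) (hK : Kunneth C)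
    (hP : ∀ S, C S → Nonempty (Pol S)) {K : Type} [Field K] [NumberField K] (g : K ≃+* K)
    (hg : ∀ (σ : K →+* ℂ) (x : K), σ (g x) = (starRingEnd ℂ) (σ x)) :
    (∀ S S', C S → C S' → ∀ (A : Adm S K) (A' : Adm S' K) (p : (K →+* ℂ) → ℕ),
      A.HasType p → A'.HasType p → ∀ σ z z', A.IsPeriod σ z → A'.IsPeriod σ z' → Sim z z') ↔
    (∀ S, C S → ∀ (A : Adm S K) (r : ℕ), S.wt = 2 * r → A.HasType (fun _ => r) →
      ∀ w ∈ A.H, (2 * Real.pi * I) ^ r • w ∈ S.D) :=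
  ⟨hodgeDeRham_of hΓ hK hP g hg, typeOnly_of hΓ hK hP g hg⟩

end GD
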