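import Pool.Agent.H5.GD.Fam

/-!
# Passage between admissible triples and families
-/

noncomputable section

namespace GD

open Complex

variable {S : Str} {F : Type} [Field F] [NumberField F]

/-- The complexification of a rational subspace has the same dimension. -/
theorem finrank_span (S : Str) (H : Submodule ℚ S.W) (hH : H ≤ S.B) [Module.Finite ℚ H] :
    Module.finrank ℂ (Submodule.span ℂ (H : Set S.W)) = Module.finrank ℚ H := by
  classical
  let b := Module.finBasis ℚ H
  have h1 : LinearIndependent ℚ (fun i => (b i : S.W)) :=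
    b.linearIndependent.map' H.subtype (Submodule.ker_subtype H)
  have h2 : LinearIndependent ℂ (fun i => (b i : S.W)) :=
    form_lin S.B S.B_form _ (fun i => hH (b i).2) h1
  have h3 : Submodule.span ℂ (H : Set S.W) = Submodule.span ℂ (Set.range fun i => (b i : S.W)) := by
    apply le_antisymm
    · rw [Submodule.span_le]
      intro w hw
      have : (⟨w, hw⟩ : H) = ∑ i, b.repr ⟨w, hw⟩ i • b i := (b.sum_repr _).symm
      have h4 := congrArg Subtype.val this
      simp only [Submodule.coe_sum, Submodule.coe_smul] at h4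
      change w ∈ _
      rw [h4]
      refine Submodule.sum_mem _ fun i _ => ?_
      rw [← algebraMap_smul ℂ]
      exact Submodule.smul_mem _ _ (Submodule.subset_span (Set.mem_range_self i))
    · rw [Submodule.span_le]
      rintro _ ⟨i, rfl⟩
      exact Submodule.subset_span (b i).2
  rw [h3, finrank_span_eq_card h2, Fintype.card_fin]

theorem finite_of_rank (H : Submodule ℚ S.W)
    (h : Module.finrank ℚ H = Module.finrank ℚ F) : Module.Finite ℚ H := by
  apply Module.finite_of_finrank_pos
  rw [h]
  exact Module.finrank_pos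

/-- Every admissible triple has an attached family. -/
theorem Adm.exists_fam (A : Adm S F) (p : (F →+* ℂ) → ℕ) (hp : A.HasType p) :
    ∃ f : Fam S F, Attached A f ∧ f.p = p := by
  classical
  have : Module.Finite ℚ A.H := finite_of_rank A.H A.rank
  choose ω hω using A.dR
  obtain ⟨α, hα⟩ := Field.exists_primitive_element ℚ F
  have hinj : Function.Injective (fun σ : F →+* ℂ => σ α) := by
    intro σ τ h
    have h1 : (RingHom.equivRatAlgHom F ℂ σ) = (RingHom.equivRatAlgHom F ℂ τ) := by
      apply (Field.primitive_element_iff_algHom_eq_of_eval' ℚ ℂ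
        (fun x => IsAlgClosed.splits _) α).1 hα
      simpa [RingHom.equivRatAlgHom_apply] using h
    exact (RingHom.equivRatAlgHom F ℂ).injective h1
  have hlin : LinearIndependent ℂ ω := by
    apply Module.End.eigenvectors_linearIndependent' (A.ι α) (fun σ => σ α) hinj
    intro σ
    refine ⟨?_, fun h => (hω σ).1 (congrArg Subtype.val h)⟩
    rw [Module.End.mem_eigenspace_iff]
    exact (hω σ).2.2 α
  have hcard : Fintype.card (F →+* ℂ)
      = Module.finrank ℂ (Submodule.span ℂ (A.H : Set S.W)) := by
    rw [finrank_span S A.H A.le, A.rank, card_emb]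
  have : Nonempty (F →+* ℂ) := by
    rw [← Fintype.card_pos_iff, card_emb]
    exact Module.finrank_pos
  let b := basisOfLinearIndependentOfCardEqFinrank hlin hcard
  have hb : ∀ σ, b σ = ω σ := fun σ => by
    simp [b]
  -- a nonzero vector
  have : Nontrivial A.H := by
    rw [← Module.finrank_pos_iff (R := ℚ), A.rank]
    exact Module.finrank_pos
  obtain ⟨⟨h0, hh0⟩, hne⟩ := exists_ne (0 : A.H)
  have hne' : h0 ≠ 0 := fun h => hne (Subtype.ext h)
  let x0 : Submodule.span ℂ (A.H : Set S.W) := ⟨h0, Submodule.subset_span hh0⟩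
  let a : (F →+* ℂ) → ℂ := fun σ => b.repr x0 σ
  have hx0 : x0 = ∑ σ, a σ • ω σ := by
    have := (b.sum_repr x0).symm
    simpa only [hb] using this
  have hact : ∀ x : F, A.ι x x0 = ∑ σ, σ x • (a σ • ω σ) := by
    intro x
    rw [hx0, map_sum]
    refine Finset.sum_congr rfl fun σ _ => ?_
    rw [map_smul, (hω σ).2.2 x, smul_comm]
  -- the rational map j
  let j : F →ₗ[ℚ] A.H :=
    { toFun := fun x => ⟨A.ι x x0, A.ι_rat x x0 hh0⟩
      map_add' := by
        intro x y
        apply Subtype.ext
        simp
      map_smul' := by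
        intro r x
        apply Subtype.ext
        simp only [RingHom.id_apply, Submodule.coe_smul]
        rw [hact, hact]
        rw [← algebraMap_smul ℂ r (_ : S.W), ← Submodule.coe_smul, Finset.smul_sum]
        congr 1
        refine Finset.sum_congr rfl fun σ _ => ?_
        rw [Algebra.smul_def, map_mul, mul_smul]
        congr 1
        simp }
  have hjinj : Function.Injective j := by
    rw [injective_iff_map_eq_zero]
    intro x hx
    by_contra hx0'
    have h1 : A.ι x x0 = 0 := by
      apply Subtype.ext
      have := congrArg Subtype.val hx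
      simpa [j] using this
    have h2 : A.ι (x⁻¹ * x) x0 = 0 := by
      rw [map_mul, Module.End.mul_apply, h1, map_zero]
    rw [inv_mul_cancel₀ hx0', map_one, Module.End.one_apply] at h2
    exact hne' (congrArg Subtype.val h2)
  have hjsurj : Function.Surjective j := by
    rw [← LinearMap.range_eq_top]
    apply Submodule.eq_top_of_finrank_eq
    rw [LinearMap.finrank_range_of_inj hjinj, A.rank]
  have hmem : ∀ h, h ∈ A.H ↔ ∃ x : F, h = ∑ σ, σ x • (a σ • (ω σ : S.W)) := by
    intro h
    constructor
    · intro hh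
      obtain ⟨x, hx⟩ := hjsurj ⟨h, hh⟩
      refine ⟨x, ?_⟩
      have h1 := congrArg Subtype.val hx
      simp only [j, LinearMap.coe_mk, AddHom.coe_mk] at h1
      rw [← h1, hact]
      simp
    · rintro ⟨x, rfl⟩
      have h1 := (j x).2
      simp only [j, LinearMap.coe_mk, AddHom.coe_mk] at h1
      rw [hact] at h1
      simpa using h1
  have ha : ∀ σ, a σ ≠ 0 := by
    intro τ hτ
    have h1 : (⊤ : Submodule ℂ (Submodule.span ℂ (A.H : Set S.W))) ≤
        Submodule.span ℂ (ω '' {σ | σ ≠ τ}) := by
      rintro ⟨w, hw⟩ _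
      have h2 : w ∈ (Submodule.span ℂ (ω '' {σ | σ ≠ τ})).map
          (Submodule.span ℂ (A.H : Set S.W)).subtype := by
        refine (Submodule.span_le.2 ?_) hw
        intro h hh
        obtain ⟨x, rfl⟩ := (hmem h).1 hh
        refine ⟨∑ σ, σ x • (a σ • ω σ), ?_, by simp⟩
        refine Submodule.sum_mem _ fun σ _ => ?_
        by_cases hστ : σ = τ
        · subst hστ
          rw [hτ, zero_smul, smul_zero]
          exact zero_mem _
        · exact Submodule.smul_mem _ _ (Submodule.smul_mem _ _
            (Submodule.subset_span ⟨σ, hστ, rfl⟩))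
      obtain ⟨y, hy, hyw⟩ := h2
      have : y = ⟨w, hw⟩ := Subtype.ext hyw
      rw [← this]
      exact hy
    have h2 : ω τ ∈ Submodule.span ℂ (ω '' {σ | σ ≠ τ}) := h1 Submodule.mem_top
    have h3 := hlin.notMem_span_image (s := {σ | σ ≠ τ}) (x := τ) (by simp)
    exact h3 h2
  let f : Fam S F :=
    { v := fun σ => a σ • (ω σ : S.W)
      c := fun σ => (a σ)⁻¹
      p := p
      lin := by
        have h1 : LinearIndependent ℂ (fun σ => (ω σ : S.W)) :=
          hlin.map' (Submodule.span ℂ (A.H : Set S.W)).subtype (Submodule.ker_subtype _)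
        have h2 := h1.units_smul (fun σ => Units.mk0 (a σ) (ha σ))
        exact h2
      rat := fun x => A.le ((hmem _).2 ⟨x, rfl⟩)
      hdg := fun σ => (S.hodge (p σ)).smul_mem _ (hp σ ⟨(ω σ).2, fun x => (hω σ).2.2 x⟩)
      c_ne := fun σ => inv_ne_zero (ha σ)
      dR := fun σ => by
        rw [smul_smul, inv_mul_cancel₀ (ha σ), one_smul]
        exact (hω σ).2.1 }
  refine ⟨f, ⟨fun σ => ?_, hmem⟩, rfl⟩
  exact Submodule.smul_mem _ _ ⟨(ω σ).2, fun x => (hω σ).2.2 x⟩

/-- Every family comes from an admissible triple. -/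
theorem Fam.exists_adm (f : Fam S F) : ∃ A : Adm S F, Attached A f ∧ A.HasType f.p := by
  classical
  have : Nonempty (F →+* ℂ) := by
    rw [← Fintype.card_pos_iff, card_emb]
    exact Module.finrank_pos
  -- the rational subspace
  let j : F →ₗ[ℚ] S.W :=
    { toFun := fun x => ∑ σ, σ x • f.v σ
      map_add' := by
        intro x y
        simp only [map_add, add_smul, Finset.sum_add_distrib]
      map_smul' := by
        intro r x
        rw [RingHom.id_apply, ← algebraMap_smul ℂ r (_ : S.W), Finset.smul_sum]
        refine Finset.sum_congr rfl fun σ _ => ?_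
        rw [Algebra.smul_def, map_mul, mul_smul]
        congr 1
        simp }
  have hj : ∀ x, j x = ∑ σ, σ x • f.v σ := fun x => rfl
  have hjinj : Function.Injective j := by
    rw [injective_iff_map_eq_zero]
    intro x hx
    obtain ⟨σ⟩ := this
    have := Fintype.linearIndependent_iff.1 f.lin _ hx σ
    exact (map_eq_zero σ).1 this
  let H : Submodule ℚ S.W := LinearMap.range j
  have hH : H ≤ S.B := by
    rintro _ ⟨x, rfl⟩
    exact f.rat x
  have hrank : Module.finrank ℚ H = Module.finrank ℚ F := LinearMap.finrank_range_of_inj hjinj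
  have hle : Submodule.span ℂ (H : Set S.W) ≤ Submodule.span ℂ (Set.range f.v) := by
    rw [Submodule.span_le]
    rintro _ ⟨x, rfl⟩
    exact Submodule.sum_mem _ fun σ _ => Submodule.smul_mem _ _
      (Submodule.subset_span (Set.mem_range_self σ))
  have : Module.Finite ℚ H := finite_of_rank H hrank
  have hspan : Submodule.span ℂ (H : Set S.W) = Submodule.span ℂ (Set.range f.v) := by
    apply Submodule.eq_of_le_of_finrank_eq hle
    rw [finrank_span S H hH, hrank, finrank_span_eq_card f.lin, card_emb]
  have hv : ∀ σ, f.v σ ∈ Submodule.span ℂ (H : Set S.W) := fun σ => by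
    rw [hspan]
    exact Submodule.subset_span (Set.mem_range_self σ)
  -- the operators
  let L : ((F →+* ℂ) → ℂ) →ₗ[ℂ] S.W := Fintype.linearCombination ℂ f.v
  have hL : ∀ a, L a = ∑ σ, a σ • f.v σ := fun a => rfl
  have hLinj : LinearMap.ker L = ⊥ := by
    rw [LinearMap.ker_eq_bot']
    intro a ha
    funext σ
    exact Fintype.linearIndependent_iff.1 f.lin _ ha σ
  obtain ⟨R, hR⟩ := L.exists_leftInverse_of_injective hLinj
  have hRL : ∀ a, R (L a) = a := fun a => by
    have := congrArg (fun g => g a) hR
    simpa using this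
  let T : F → S.W →ₗ[ℂ] S.W := fun x =>
    { toFun := fun w => L (fun σ => σ x * R w σ)
      map_add' := by
        intro w w'
        rw [← map_add]
        congr 1
        funext σ
        simp [mul_add]
      map_smul' := by
        intro c w
        rw [← map_smul]
        congr 1
        funext σ
        simp [mul_left_comm] }
  have hT : ∀ x a, T x (L a) = L (fun σ => σ x * a σ) := by
    intro x a
    change L (fun σ => σ x * R (L a) σ) = _
    rw [hRL]
  have hmemL : ∀ w, w ∈ Submodule.span ℂ (H : Set S.W) ↔ ∃ a, w = L a := by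
    intro w
    rw [hspan, Submodule.mem_span_range_iff_exists_fun]
    exact ⟨fun ⟨a, ha⟩ => ⟨a, ha.symm⟩, fun ⟨a, ha⟩ => ⟨a, ha.symm⟩⟩
  have hTmem : ∀ x, ∀ w ∈ Submodule.span ℂ (H : Set S.W), T x w ∈ Submodule.span ℂ (H : Set S.W) := by
    intro x w hw
    obtain ⟨a, rfl⟩ := (hmemL w).1 hw
    rw [hT, hmemL]
    exact ⟨_, rfl⟩
  have hsingle : ∀ σ, L (Pi.single σ 1) = f.v σ := by
    intro σ
    rw [hL, Finset.sum_eq_single σ]
    · simp
    · intro τ _ hτ
      rw [Pi.single_eq_of_ne hτ, zero_smul]
    · intro h
      exact absurd (Finset.mem_univ σ) h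
  have hTv : ∀ x σ, T x (f.v σ) = σ x • f.v σ := by
    intro x σ
    rw [← hsingle, hT, ← map_smul]
    congr 1
    funext τ
    by_cases h : τ = σ
    · subst h; simp
    · simp [Pi.single_eq_of_ne h]
  have hTj : ∀ x y, T x (j y) = j (x * y) := by
    intro x y
    rw [hj, hj, map_sum]
    refine Finset.sum_congr rfl fun σ _ => ?_
    rw [map_smul, hTv, smul_smul, map_mul, mul_comm]
  let ι : F →+* Module.End ℂ (Submodule.span ℂ (H : Set S.W)) :=
    { toFun := fun x => (T x).restrict (hTmem x)
      map_one' := by
        ext ⟨w, hw⟩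
        obtain ⟨a, rfl⟩ := (hmemL w).1 hw
        simp only [LinearMap.coe_restrict_apply, Module.End.one_apply]
        rw [hT]
        simp
      map_mul' := by
        intro x y
        ext ⟨w, hw⟩
        obtain ⟨a, rfl⟩ := (hmemL w).1 hw
        simp only [LinearMap.coe_restrict_apply, Module.End.mul_apply]
        rw [hT, hT, hT]
        congr 1
        funext σ
        rw [map_mul, mul_assoc]
      map_zero' := by
        ext ⟨w, hw⟩
        obtain ⟨a, rfl⟩ := (hmemL w).1 hw
        simp only [LinearMap.coe_restrict_apply]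
        rw [hT]
        have : (fun σ : F →+* ℂ => σ 0 * a σ) = 0 := by
          funext σ
          simp
        rw [this]
        simp
      map_add' := by
        intro x y
        ext ⟨w, hw⟩
        obtain ⟨a, rfl⟩ := (hmemL w).1 hw
        simp only [LinearMap.coe_restrict_apply, LinearMap.add_apply, Submodule.coe_add]
        rw [hT, hT, hT, ← map_add]
        congr 1
        funext σ
        rw [map_add, add_mul]
        rfl }
  have hι : ∀ x w, (ι x w : S.W) = T x w := fun x w => rfl
  -- Hodge components of vectors in the span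
  have hdisj : ∀ (a : (F →+* ℂ) → ℂ) (p : ℕ), L a ∈ S.hodge p → ∀ σ, a σ ≠ 0 → f.p σ = p := by
    intro a p hap
    have hind := S.hodge_internal.submodule_iSupIndep
    -- group the sum by Hodge type
    by_contra hcon
    push Not at hcon
    obtain ⟨σ, hσ, hσp⟩ := hcon
    let q := f.p σ
    let u : S.W := ∑ τ ∈ Finset.univ.filter (fun τ => f.p τ = q), a τ • f.v τ
    have hu : u ∈ S.hodge q := by
      refine Submodule.sum_mem _ fun τ hτ => Submodule.smul_mem _ _ ?_
      have := f.hdg τ
      rw [(Finset.mem_filter.1 hτ).2] at this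
      exact this
    have hu' : u ∈ ⨆ (r) (_ : r ≠ q), S.hodge r := by
      have hsum : u = L a - ∑ τ ∈ Finset.univ.filter (fun τ => ¬ f.p τ = q), a τ • f.v τ := by
        rw [hL, ← Finset.sum_filter_add_sum_filter_not Finset.univ (fun τ => f.p τ = q)]
        simp [u]
      rw [hsum]
      refine Submodule.sub_mem _ ?_ (Submodule.sum_mem _ fun τ hτ => Submodule.smul_mem _ _ ?_)
      · exact Submodule.mem_iSup_of_mem p (Submodule.mem_iSup_of_mem (fun h => hσp h.symm) hap)
      · exact Submodule.mem_iSup_of_mem (f.p τ) (Submodule.mem_iSup_of_mem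
          (Finset.mem_filter.1 hτ).2 (f.hdg τ))
    have hu0 : u = 0 := by
      have := (hind q).le_bot ⟨hu, hu'⟩
      simpa using this
    have hu1 : ∑ τ, (if f.p τ = q then a τ else 0) • f.v τ = 0 := by
      rw [← hu0]
      simp only [u, ite_smul, zero_smul, Finset.sum_filter]
    have := Fintype.linearIndependent_iff.1 f.lin _ hu1 σ
    rw [if_pos rfl] at this
    exact hσ this
  let A : Adm S F :=
    { H := H
      le := hH
      sub_hodge := by
        unfold SubHodge Str.cx
        rw [Submodule.span_le]
        rintro _ ⟨x, rfl⟩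
        refine Submodule.sum_mem _ fun σ _ => Submodule.smul_mem _ _ ?_
        exact Submodule.mem_iSup_of_mem (f.p σ) ⟨hv σ, f.hdg σ⟩
      ι := ι
      ι_rat := by
        rintro x ⟨w, hw⟩ ⟨y, hy⟩
        rw [hι]
        change T x w ∈ H
        change j y = w at hy
        rw [← hy, hTj]
        exact ⟨_, rfl⟩
      ι_hodge := by
        rintro x p ⟨w, hw⟩ hwp
        obtain ⟨a, rfl⟩ := (hmemL w).1 hw
        change T x (L a) ∈ S.hodge p
        change L a ∈ S.hodge p at hwp
        rw [hT, hL]
        refine Submodule.sum_mem _ fun σ _ => ?_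
        by_cases hσ : a σ = 0
        · rw [hσ, mul_zero, zero_smul]
          exact zero_mem _
        · refine Submodule.smul_mem _ _ ?_
          have := f.hdg σ
          rwa [hdisj a p hwp σ hσ] at this
      rank := hrank
      dR := by
        intro σ
        refine ⟨f.c σ • ⟨f.v σ, hv σ⟩, smul_ne_zero (f.c_ne σ) (f.v_ne σ), f.dR σ, ?_⟩
        intro x
        rw [map_smul, smul_comm]
        congr 1
        exact Subtype.ext (hTv x σ) }
  have hatt : Attached A f := by
    refine ⟨fun σ => ⟨hv σ, fun x => Subtype.ext (hTv x σ)⟩, fun h => ?_⟩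
    constructor
    · rintro ⟨x, hx⟩
      exact ⟨x, hx.symm⟩
    · rintro ⟨x, rfl⟩
      exact ⟨x, rfl⟩
  refine ⟨A, hatt, ?_⟩
  intro σ w hw
  obtain ⟨t, rfl⟩ := hatt.line_eq hw
  exact Submodule.smul_mem _ _ (f.hdg σ)

end GD
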