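import Pool.Agent.H5.GD.Level

/-!
# The reduction arguments
-/

noncomputable section

namespace GD

open Complex NumberField

variable {C : Str → Prop} {V : Type*} [AddCommGroup V] [Module ℚ V] {cls : ℂ → V}

theorem Rz.mul_range (hK : Kunneth C) {F : Type} [Field F] [NumberField F] {m : ℕ}
    {c : (F →+* ℂ) → ℂ} {p : (F →+* ℂ) → ℕ} (h : Rz C F m c p)
    (c' : ℕ → (F →+* ℂ) → ℂ) (p' : ℕ → (F →+* ℂ) → ℕ) (n : ℕ)
    (h' : ∀ j < n, Rz C F 1 (c' j) (p' j)) :
    Rz C F (m + n) (fun σ => c σ * ∏ j ∈ Finset.range n, c' j σ)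
      (fun σ => p σ + ∑ j ∈ Finset.range n, p' j σ) := by
  induction n with
  | zero => simpa using h
  | succ n ih =>
    have h1 := Rz.mul hK (ih fun j hj => h' j (Nat.lt_succ_of_lt hj)) (h' n (Nat.lt_succ_self n))
    change Rz C F (m + n + 1) _ _
    convert h1 using 1
    · funext σ
      rw [Finset.prod_range_succ, mul_assoc]
    · funext σ
      rw [Finset.sum_range_succ, add_assoc]

/-- The CM type function. -/
def typ {K : Type} [Field K] (Φ : Set (K →+* ℂ)) : (K →+* ℂ) → ℕ := by
  classical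
  exact fun σ => if σ ∈ Φ then 1 else 0

theorem conj_conj {K : Type} [Field K] (σ : K →+* ℂ) :
    ComplexEmbedding.conjugate (ComplexEmbedding.conjugate σ) = σ := by
  ext x
  simp [ComplexEmbedding.conjugate]

/-- Functions with Hodge symmetry are sums of CM types. -/
theorem exists_types {K : Type} [Field K] [NumberField K]
    (hK : ∀ σ : K →+* ℂ, ComplexEmbedding.conjugate σ ≠ σ) (M : ℕ) (p : (K →+* ℂ) → ℕ)
    (hp : ∀ σ, p σ + p (ComplexEmbedding.conjugate σ) = M) :
    ∃ Φ : ℕ → Set (K →+* ℂ),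
      (∀ j, ∀ σ, σ ∈ Φ j ↔ ComplexEmbedding.conjugate σ ∉ Φ j) ∧
      ∀ σ, p σ + ∑ j ∈ Finset.range M, typ (Φ j) σ = M := by
  classical
  obtain ⟨α, hα⟩ := Field.exists_primitive_element ℚ K
  have hinj : Function.Injective (fun σ : K →+* ℂ => σ α) := by
    intro σ τ h
    have h1 : (RingHom.equivRatAlgHom K ℂ σ) = (RingHom.equivRatAlgHom K ℂ τ) := by
      apply (Field.primitive_element_iff_algHom_eq_of_eval' ℚ ℂ
        (fun x => IsAlgClosed.splits _) α).1 hα
      simpa [RingHom.equivRatAlgHom_apply] using h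
    exact (RingHom.equivRatAlgHom K ℂ).injective h1
  have him : ∀ σ : K →+* ℂ, (σ α).im ≠ 0 := by
    intro σ h0
    apply hK σ
    apply hinj
    change (starRingEnd ℂ) (σ α) = σ α
    exact Complex.conj_eq_iff_im.2 h0
  have hconj : ∀ σ : K →+* ℂ, (ComplexEmbedding.conjugate σ α).im = -(σ α).im := by
    intro σ
    change ((starRingEnd ℂ) (σ α)).im = _
    exact Complex.conj_im _
  let P : (K →+* ℂ) → Prop := fun σ => 0 < (σ α).im
  have hP : ∀ σ, P σ ↔ ¬ P (ComplexEmbedding.conjugate σ) := by
    intro σ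
    simp only [P, hconj]
    have := him σ
    constructor
    · intro h h'
      linarith
    · intro h
      rcases lt_or_gt_of_ne this with h1 | h1
      · exfalso
        apply h
        linarith
      · exact h1
  let Φ : ℕ → Set (K →+* ℂ) := fun j => {σ | if P σ then j < M - p σ else
    ¬ j < M - p (ComplexEmbedding.conjugate σ)}
  have hmem : ∀ j σ, σ ∈ Φ j ↔ (if P σ then j < M - p σ else
    ¬ j < M - p (ComplexEmbedding.conjugate σ)) := fun j σ => Iff.rfl
  refine ⟨Φ, ?_, ?_⟩
  · intro j σ
    rw [hmem, hmem]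
    by_cases h : P σ
    · have h' := (hP σ).1 h
      rw [if_pos h, if_neg h', conj_conj, not_not]
    · have h' : P (ComplexEmbedding.conjugate σ) := by
        by_contra h'
        exact h ((hP σ).2 h')
      rw [if_neg h, if_pos h']
  · intro σ
    have hσ := hp σ
    by_cases h : P σ
    · have h1 : ∀ j ∈ Finset.range M, typ (Φ j) σ = if j < M - p σ then 1 else 0 := by
        intro j _
        unfold typ
        rw [hmem, if_pos h]
        by_cases hj : j < M - p σ <;> simp [hj]
      rw [Finset.sum_congr rfl h1, Finset.sum_ite, Finset.sum_const_zero, add_zero,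
        Finset.sum_const, smul_eq_mul, mul_one]
      have h2 : (Finset.range M).filter (fun j => j < M - p σ) = Finset.range (M - p σ) := by
        ext j
        simp only [Finset.mem_filter, Finset.mem_range]
        omega
      rw [h2, Finset.card_range]
      omega
    · have h1 : ∀ j ∈ Finset.range M, typ (Φ j) σ =
          if j < M - p (ComplexEmbedding.conjugate σ) then 0 else 1 := by
        intro j _
        unfold typ
        rw [hmem, if_neg h]
        by_cases h3 : j < M - p (ComplexEmbedding.conjugate σ)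
        · rw [if_pos h3, if_neg (not_not.2 h3)]
        · rw [if_neg h3, if_pos h3]
      rw [Finset.sum_congr rfl h1, Finset.sum_ite, Finset.sum_const_zero, zero_add,
        Finset.sum_const, smul_eq_mul, mul_one]
      have h2 : (Finset.range M).filter (fun j => ¬ j < M - p (ComplexEmbedding.conjugate σ)) =
          (Finset.range M) \ Finset.range (M - p (ComplexEmbedding.conjugate σ)) := by
        ext j
        simp only [Finset.mem_filter, Finset.mem_range, Finset.mem_sdiff]
      rw [h2, Finset.card_sdiff_of_subset (by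
        intro j
        simp only [Finset.mem_range]
        omega), Finset.card_range, Finset.card_range]
      omega

theorem phi_mul_of_eq {F : Type} [Field F] [NumberField F] {d : ℕ} [NeZero d] (e : F →+* ℂ)
    (he : ∀ x, e x ∈ cyc d) (l ν : (ZMod d)ˣ) (h : phi e he ν = e) :
    phi e he (l * ν) = phi e he l := by
  ext x
  rw [phi_apply, phi_apply, sAut_mul]
  have h1 : sAut d ν (eRes e he x) = eRes e he x := by
    apply Subtype.ext
    have := congrArg (fun t => t x) h
    exact this
  rw [h1]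

/-- Reduction to the imaginary cyclic subfields. -/
theorem core_cyclic (hΓ : GammaSpec V cls) (hK : Kunneth C) (hP : ∀ S, C S → Nonempty (Pol S))
    {F : Type} [Field F] [NumberField F] (e : F →+* ℂ) {d : ℕ} [NeZero d]
    (he : ∀ x, e x ∈ cyc d)
    (hyp : ∀ (K : Type) [Field K] [NumberField K] (i : K →+* F), (∃ x, (e (i x)).im ≠ 0) →
      IsGalois ℚ K → IsCyclic (K ≃ₐ[ℚ] K) → ∀ (m : ℕ) (c : (K →+* ℂ) → ℂ) (p : (K →+* ℂ) → ℕ),
        Rz C K m c p → RelAll cls d (e.comp i) (fun x => he (i x)) c p)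
    {m : ℕ} {c : (F →+* ℂ) → ℂ} {p : (F →+* ℂ) → ℕ} (h : Rz C F m c p) :
    RelAll cls d e he c p := by
  classical
  intro ε hε
  have hpc : ∀ l, (p (phi e he l) : ℚ) + p (phi e he (-l)) = m := by
    intro l
    rw [← conj_phi]
    exact_mod_cast h.p_add (phi e he l)
  let D : (ZMod d)ˣ → V := fun l => cls (c (phi e he l)) - tsum' d (gam cls) ε l
  have hD : ∀ l, D l = cls (c (phi e he l)) - tsum' d (gam cls) ε l := fun l => rfl
  suffices hz : ∀ l, D l = 0 from fun l => sub_eq_zero.1 (hz l)
  apply char_zero D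
  · intro l
    have h1 : cls (c (phi e he l)) + cls (c (phi e he (-l)))
        = (m : ℚ) • cls ((Real.pi : ℝ) : ℂ) := by
      rw [← hΓ.mul _ _ (h.c_ne _) (h.c_ne _), ← cls_two_pi_I hΓ, ← conj_phi]
      exact cls_of_sim hΓ (h.pol hP (phi e he l))
    have h2 := gam_odd hΓ d m ε l (by rw [hε, hε, hpc])
    rw [hD, hD, eq_neg_iff_add_eq_zero]
    have : cls (c (phi e he (-l))) - tsum' d (gam cls) ε (-l) +
        (cls (c (phi e he l)) - tsum' d (gam cls) ε l)
        = (cls (c (phi e he l)) + cls (c (phi e he (-l)))) -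
          (tsum' d (gam cls) ε l + tsum' d (gam cls) ε (-l)) := by abel
    rw [this, h1, h2, sub_self]
  · intro χ hχ
    by_cases hN : ∀ l, phi e he l = e → l ∈ χ.ker
    · left
      obtain ⟨K, _, _, i, hi, hGal, hcyc⟩ := exists_subfield e he χ.ker hN (cyclic_quot_ker χ)
      obtain ⟨G, hGs, hG⟩ := exists_G e he
      have hneg : (-1 : (ZMod d)ˣ) ∉ χ.ker := fun hh => hχ hh
      -- the norm structure over F
      have hprod := Rz.prod hK (F := F) (s := (Finset.univ : Finset χ.ker))
        Finset.univ_nonempty (fun _ => m)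
        (fun ν σ => c (σ.comp (G (ν : (ZMod d)ˣ)).toRingEquiv.toRingHom))
        (fun ν σ => p (σ.comp (G (ν : (ZMod d)ˣ)).toRingEquiv.toRingHom))
        (fun ν _ => h.twist (G (ν : (ZMod d)ˣ)).toRingEquiv)
      have hpc' : ∀ l, (∑ ν : χ.ker, p ((phi e he l).comp
          (G (ν : (ZMod d)ˣ)).toRingEquiv.toRingHom)) = ∑ ν : χ.ker, p (phi e he (l * ν)) := by
        intro l
        exact Finset.sum_congr rfl fun ν _ => by rw [phi_comp_G e he G hG]
      have hcc' : ∀ l, (∏ ν : χ.ker, c ((phi e he l).comp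
          (G (ν : (ZMod d)ˣ)).toRingEquiv.toRingHom)) = ∏ ν : χ.ker, c (phi e he (l * ν)) := by
        intro l
        exact Finset.prod_congr rfl fun ν _ => by rw [phi_comp_G e he G hG]
      have hfib : ∀ l l', (phi e he l).comp i = (phi e he l').comp i →
          ∃ μ : χ.ker, l' = l * μ := by
        intro l l' hll
        exact ⟨⟨l⁻¹ * l', (hi l l').1 hll⟩, by simp⟩
      obtain ⟨cK, pK, hRK, hKval⟩ := hprod.descend i
        (by
          intro σ τ hστ
          obtain ⟨l, rfl⟩ := exists_phi e he σ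
          obtain ⟨l', rfl⟩ := exists_phi e he τ
          obtain ⟨μ, rfl⟩ := hfib l l' hστ
          rw [hpc', hpc']
          rw [← Equiv.sum_comp (Equiv.mulLeft μ)]
          refine Finset.sum_congr rfl fun ν _ => ?_
          rw [Equiv.coe_mulLeft, Subgroup.coe_mul, mul_assoc])
        (by
          intro σ τ hστ
          obtain ⟨l, rfl⟩ := exists_phi e he σ
          obtain ⟨l', rfl⟩ := exists_phi e he τ
          obtain ⟨μ, rfl⟩ := hfib l l' hστ
          have heq : (∏ ν : χ.ker, c ((phi e he l).comp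
              (G (ν : (ZMod d)ˣ)).toRingEquiv.toRingHom)) =
              ∏ ν : χ.ker, c ((phi e he (l * μ)).comp
              (G (ν : (ZMod d)ˣ)).toRingEquiv.toRingHom) := by
            rw [hcc', hcc']
            rw [← Equiv.prod_comp (Equiv.mulLeft μ)]
            refine Finset.prod_congr rfl fun ν _ => ?_
            rw [Equiv.coe_mulLeft, Subgroup.coe_mul, mul_assoc]
          rw [heq]
          exact Sim.refl (Finset.prod_ne_zero_iff.2 fun ν _ => h.c_ne _))
      have hphiK : ∀ l, phi (e.comp i) (fun x => he (i x)) l = (phi e he l).comp i :=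
        fun l => rfl
      have him : ∃ x, (e (i x)).im ≠ 0 := by
        by_contra hcon
        push Not at hcon
        apply hneg
        have h1 : (phi e he 1).comp i = (phi e he (-1)).comp i := by
          rw [← conj_phi, phi_one]
          ext x
          exact (Complex.conj_eq_iff_im.2 (hcon x)).symm
        have h2 := (hi 1 (-1)).1 h1
        simpa using h2
      have hrel := hyp K i him hGal hcyc _ cK pK hRK
      let εT : ZMod d → ℚ := fun a =>
        ∑ ν : χ.ker, ε (a * (((ν : (ZMod d)ˣ)⁻¹ : (ZMod d)ˣ) : ZMod d))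
      have hεT : ∀ l : (ZMod d)ˣ,
          tsum' d (gam cls) εT l = ∑ ν : χ.ker, tsum' d (gam cls) ε (l * ν) := by
        intro l
        rw [tsum_sum]
        exact Finset.sum_congr rfl fun ν _ => tsum_shift _ ε l ν
      have hεTid : ∀ l : (ZMod d)ˣ,
          tsum' d (fun x => x) εT l = ∑ ν : χ.ker, tsum' d (fun x => x) ε (l * ν) := by
        intro l
        rw [tsum_sum]
        exact Finset.sum_congr rfl fun ν _ => tsum_shift _ ε l ν
      intro l
      have h0 := hrel εT (by
        intro l
        rw [hεTid, hphiK, (hKval (phi e he l)).1, hpc']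
        push_cast
        exact Finset.sum_congr rfl fun ν _ => hε _) l
      have h1 : cls (cK ((phi e he l).comp i)) = ∑ ν : χ.ker, cls (c (phi e he (l * ν))) := by
        have h2 := (hKval (phi e he l)).2
        rw [hcc'] at h2
        rw [cls_of_sim hΓ h2, cls_prod hΓ]
        intro ν _
        exact h.c_ne _
      rw [hphiK, h1, hεT] at h0
      simp only [hD, Finset.sum_sub_distrib]
      rw [h0, sub_self]
    · right
      push Not at hN
      obtain ⟨ν, hν, hν'⟩ := hN
      refine ⟨ν, hν', fun l => ?_⟩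
      rw [hD, hD, phi_mul_of_eq e he l ν hν, ← tsum_shift]
      congr 1
      apply ko' hΓ
      intro l'
      rw [tsum_shift, hε, hε, phi_mul_of_eq e he l' ν hν]

/-- Imaginary abelian fields have no real embedding. -/
theorem no_real {K : Type} [Field K] [NumberField K] (e : K →+* ℂ) {d : ℕ} [NeZero d]
    (he : ∀ x, e x ∈ cyc d) (him : ∃ x, (e x).im ≠ 0) (σ : K →+* ℂ) :
    ComplexEmbedding.conjugate σ ≠ σ := by
  intro hσ
  obtain ⟨l, rfl⟩ := exists_phi e he σ
  obtain ⟨G, hGs, hG⟩ := exists_G e he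
  have h1 : (phi e he l).comp (G (-1)).toRingEquiv.toRingHom = phi e he l := by
    rw [phi_comp_G e he G hG, mul_neg, mul_one, ← conj_phi, hσ]
  have h2 : ∀ x, G (-1) x = x := by
    intro x
    have := congrArg (fun t => t x) h1
    exact (phi e he l).injective this
  have h3 : ComplexEmbedding.conjugate e = e := by
    have h4 := conj_phi e he 1
    rw [phi_one] at h4
    rw [h4]
    have h5 := phi_comp_G e he G hG 1 (-1)
    rw [one_mul, phi_one] at h5
    rw [← h5]
    ext x
    exact congrArg e (h2 x)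
  obtain ⟨x, hx⟩ := him
  apply hx
  have := congrArg (fun t => t x) h3
  exact Complex.conj_eq_iff_im.1 this

/-- For an imaginary field, the relation follows from structures with complex multiplication
and structures of Tate type. -/
theorem core_tate (hΓ : GammaSpec V cls) (hK : Kunneth C) {K : Type} [Field K] [NumberField K]
    (e : K →+* ℂ) {d : ℕ} [NeZero d] (he : ∀ x, e x ∈ cyc d) (him : ∃ x, (e x).im ≠ 0)
    (hd3 : 3 ≤ d)
    (hCM : ∀ Φ : Set (K →+* ℂ), (∀ σ, σ ∈ Φ ↔ ComplexEmbedding.conjugate σ ∉ Φ) →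
      ∃ c, Rz C K 1 c (typ Φ) ∧ RelAll cls d e he c (typ Φ))
    (hT : ∀ (r : ℕ) (c : (K →+* ℂ) → ℂ), Rz C K (2 * r) c (fun _ => r) →
      ∀ σ, cls (c σ) = (r : ℚ) • cls ((Real.pi : ℝ) : ℂ))
    {M : ℕ} {c : (K →+* ℂ) → ℂ} {p : (K →+* ℂ) → ℕ} (h : Rz C K M c p) :
    RelAll cls d e he c p := by
  classical
  intro ε hε l
  obtain ⟨Φ, hΦ1, hΦ2⟩ := exists_types (no_real e he him) M p (fun σ => h.p_add σ)
  choose cj hcj1 hcj2 using fun j => hCM (Φ j) (hΦ1 j)
  have hTate := Rz.mul_range hK h cj (fun j => typ (Φ j)) M (fun j _ => hcj1 j)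
  have hconst : (fun σ => p σ + ∑ j ∈ Finset.range M, typ (Φ j) σ) = fun _ => M := by
    funext σ
    exact hΦ2 σ
  rw [hconst, ← two_mul] at hTate
  have hper := hT M _ hTate (phi e he l)
  rw [hΓ.mul, cls_prod hΓ] at hper
  rotate_left
  · intro j _
    exact (hcj1 j).c_ne _
  · exact h.c_ne _
  · exact Finset.prod_ne_zero_iff.2 fun j _ => (hcj1 j).c_ne _
  choose εj hεj using fun j => ex' hΓ d hd3 1
    (fun l => ((typ (Φ j) (phi e he l) : ℕ) : ℚ)) (fun l => by
      rw [← conj_phi]
      exact_mod_cast (hcj1 j).p_add (phi e he l))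
  have hgj : ∀ j, cls (cj j (phi e he l)) = tsum' d (gam cls) (εj j) l :=
    fun j => hcj2 j (εj j) (hεj j) l
  have htot : ∀ l, tsum' d (fun x => x) (fun a => ε a + ∑ j ∈ Finset.range M, εj j a) l = M := by
    intro l
    rw [tsum_add, hε, tsum_sum]
    have h2 : ∑ j ∈ Finset.range M, tsum' d (fun x => x) (εj j) l
        = ∑ j ∈ Finset.range M, ((typ (Φ j) (phi e he l) : ℕ) : ℚ) :=
      Finset.sum_congr rfl fun j _ => hεj j l
    rw [h2]
    exact_mod_cast hΦ2 (phi e he l)
  have hgtot := gam_const hΓ d M _ htot (by omega) l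
  rw [tsum_add, tsum_sum] at hgtot
  have h4 : ∑ j ∈ Finset.range M, cls (cj j (phi e he l))
      = ∑ j ∈ Finset.range M, tsum' d (gam cls) (εj j) l :=
    Finset.sum_congr rfl fun j _ => hgj j
  rw [h4, ← hgtot] at hper
  exact add_right_cancel hper

end GD
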