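import Pool.Agent.H5.GD.Real

/-!
# Embeddings of a field inside a cyclotomic field
-/

noncomputable section

namespace GD

open Complex NumberField

theorem zeta_prim (d : ℕ) [NeZero d] : IsPrimitiveRoot (zeta d) d :=
  Complex.isPrimitiveRoot_exp d (NeZero.ne d)

instance cyc_cyclotomic (d : ℕ) [NeZero d] : IsCyclotomicExtension {d} ℚ (cyc d) := by
  have h1 : IsAlgebraic ℚ (zeta d) := by
    have : IsIntegral ℚ (zeta d) := (zeta_prim d).isIntegral (NeZero.pos d) |>.tower_top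
    exact this.isAlgebraic
  change IsCyclotomicExtension {d} ℚ (IntermediateField.adjoin ℚ {zeta d}).toSubalgebra
  rw [IntermediateField.adjoin_simple_toSubalgebra_of_isAlgebraic h1]
  exact (zeta_prim d).adjoin_isCyclotomicExtension ℚ

instance cyc_numberField (d : ℕ) [NeZero d] : NumberField (cyc d) :=
  IsCyclotomicExtension.numberField {d} ℚ (cyc d)

theorem zeta_mem (d : ℕ) : zeta d ∈ cyc d :=
  IntermediateField.subset_adjoin ℚ _ (Set.mem_singleton _)

/-- The Galois automorphism attached to a unit. -/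
def sAut (d : ℕ) [NeZero d] (l : (ZMod d)ˣ) : (cyc d) ≃ₐ[ℚ] (cyc d) :=
  (IsCyclotomicExtension.Rat.galEquivZMod d (cyc d)).symm l

theorem sAut_mul (d : ℕ) [NeZero d] (l l' : (ZMod d)ˣ) (z : cyc d) :
    sAut d (l * l') z = sAut d l (sAut d l' z) := by
  unfold sAut
  rw [map_mul]
  rfl

theorem sAut_one (d : ℕ) [NeZero d] (z : cyc d) : sAut d 1 z = z := by
  unfold sAut
  rw [map_one]
  rfl

theorem sAut_zeta (d : ℕ) [NeZero d] (l : (ZMod d)ˣ) (z : cyc d) (hz : (z : ℂ) ^ d = 1) :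
    sAut d l z = z ^ (l : ZMod d).val := by
  have h := IsCyclotomicExtension.Rat.galEquivZMod_apply_of_pow_eq d (cyc d) (sAut d l) (x := z)
    (Subtype.ext (by simpa using hz))
  unfold sAut at h ⊢
  rw [MulEquiv.apply_symm_apply] at h
  exact h

/-- Ring homomorphisms from the cyclotomic field are determined by the root of unity. -/
theorem cyc_ext (d : ℕ) [NeZero d] (s t : cyc d →+* ℂ)
    (h : s ⟨zeta d, zeta_mem d⟩ = t ⟨zeta d, zeta_mem d⟩) : s = t := by
  apply (RingHom.equivRatAlgHom (cyc d) ℂ).injective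
  have hS : cyc d = IntermediateField.adjoin ℚ {zeta d} := rfl
  refine IntermediateField.algHom_ext_of_eq_adjoin _ hS ?_
  intro x hx
  rw [Set.mem_singleton_iff] at hx
  subst hx
  exact h

variable {F : Type} [Field F] [NumberField F]

/-- The embedding of `F` in the cyclotomic field. -/
def eRes {d : ℕ} (e : F →+* ℂ) (he : ∀ x, e x ∈ cyc d) : F →+* cyc d :=
  { toFun := fun x => ⟨e x, he x⟩
    map_one' := Subtype.ext (map_one e)
    map_mul' := fun x y => Subtype.ext (map_mul e x y)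
    map_zero' := Subtype.ext (map_zero e)
    map_add' := fun x y => Subtype.ext (map_add e x y) }

theorem eRes_coe {d : ℕ} (e : F →+* ℂ) (he : ∀ x, e x ∈ cyc d) (x : F) :
    ((eRes e he x : cyc d) : ℂ) = e x := rfl

/-- The embedding `φ(l)`. -/
def phi {d : ℕ} [NeZero d] (e : F →+* ℂ) (he : ∀ x, e x ∈ cyc d) (l : (ZMod d)ˣ) : F →+* ℂ :=
  ((algebraMap (cyc d) ℂ).comp (sAut d l).toRingEquiv.toRingHom).comp (eRes e he)

theorem phi_apply {d : ℕ} [NeZero d] (e : F →+* ℂ) (he : ∀ x, e x ∈ cyc d) (l : (ZMod d)ˣ)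
    (x : F) : phi e he l x = ((sAut d l (eRes e he x) : cyc d) : ℂ) := rfl

theorem isPhi_iff {d : ℕ} [NeZero d] (e : F →+* ℂ) (he : ∀ x, e x ∈ cyc d) (l : (ZMod d)ˣ)
    (σ : F →+* ℂ) : IsPhi e d l σ ↔ σ = phi e he l := by
  constructor
  · rintro ⟨s, hs, hσ⟩
    have h1 : s = (algebraMap (cyc d) ℂ).comp (sAut d l).toRingEquiv.toRingHom := by
      apply cyc_ext
      rw [hs ⟨zeta d, zeta_mem d⟩ rfl]
      change _ = ((sAut d l ⟨zeta d, zeta_mem d⟩ : cyc d) : ℂ)
      rw [sAut_zeta d l ⟨zeta d, zeta_mem d⟩ (zeta_prim d).pow_eq_one]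
      rfl
    ext x
    rw [hσ x (eRes e he x) rfl, h1]
    rfl
  · rintro rfl
    refine ⟨(algebraMap (cyc d) ℂ).comp (sAut d l).toRingEquiv.toRingHom, ?_, ?_⟩
    · intro z hz
      have hz' : z = ⟨zeta d, zeta_mem d⟩ := Subtype.ext hz
      subst hz'
      change ((sAut d l ⟨zeta d, zeta_mem d⟩ : cyc d) : ℂ) = _
      rw [sAut_zeta d l ⟨zeta d, zeta_mem d⟩ (zeta_prim d).pow_eq_one]
      rfl
    · intro x z hz
      have hz' : z = eRes e he x := Subtype.ext hz
      subst hz'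
      rfl

theorem phi_one {d : ℕ} [NeZero d] (e : F →+* ℂ) (he : ∀ x, e x ∈ cyc d) :
    phi e he 1 = e := by
  ext x
  rw [phi_apply, sAut_one]
  rfl

theorem isAbelian_of {d : ℕ} [NeZero d] (e : F →+* ℂ) (he : ∀ x, e x ∈ cyc d) :
    IsAbelianGalois ℚ F := by
  have : IsAbelianGalois ℚ (cyc d) := IsCyclotomicExtension.isAbelianGalois {d} ℚ (cyc d)
  exact IsAbelianGalois.of_algHom (RingHom.equivRatAlgHom F (cyc d) (eRes e he))

/-- The Galois action of the units on `F`. -/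
theorem exists_G {d : ℕ} [NeZero d] (e : F →+* ℂ) (he : ∀ x, e x ∈ cyc d) :
    ∃ G : (ZMod d)ˣ →* (F ≃ₐ[ℚ] F), Function.Surjective G ∧
      ∀ l x, eRes e he (G l x) = sAut d l (eRes e he x) := by
  have := isAbelian_of e he
  let : Algebra F (cyc d) := (eRes e he).toAlgebra
  have : IsScalarTower ℚ F (cyc d) := IsScalarTower.of_algebraMap_eq' (Subsingleton.elim _ _)
  have : IsAbelianGalois ℚ (cyc d) := IsCyclotomicExtension.isAbelianGalois {d} ℚ (cyc d)
  refine ⟨(AlgEquiv.restrictNormalHom F).comp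
    (IsCyclotomicExtension.Rat.galEquivZMod d (cyc d)).symm.toMonoidHom, ?_, ?_⟩
  · exact (AlgEquiv.restrictNormalHom_surjective (cyc d)).comp (MulEquiv.surjective _)
  · intro l x
    exact AlgEquiv.restrictNormal_commutes (sAut d l) F x

theorem phi_comp_G {d : ℕ} [NeZero d] (e : F →+* ℂ) (he : ∀ x, e x ∈ cyc d)
    (G : (ZMod d)ˣ →* (F ≃ₐ[ℚ] F))
    (hG : ∀ l x, eRes e he (G l x) = sAut d l (eRes e he x)) (l ν : (ZMod d)ˣ) :
    (phi e he l).comp (G ν).toRingEquiv.toRingHom = phi e he (l * ν) := by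
  ext x
  change phi e he l (G ν x) = _
  rw [phi_apply, phi_apply, hG, sAut_mul]

theorem exists_phi {d : ℕ} [NeZero d] (e : F →+* ℂ) (he : ∀ x, e x ∈ cyc d) (σ : F →+* ℂ) :
    ∃ l, σ = phi e he l := by
  obtain ⟨G, hGs, hG⟩ := exists_G e he
  have := isAbelian_of e he
  let : Algebra F ℂ := e.toAlgebra
  have : IsScalarTower ℚ F ℂ := IsScalarTower.of_algebraMap_eq' (Subsingleton.elim _ _)
  let g := Normal.algHomEquivAut ℚ ℂ F (RingHom.equivRatAlgHom F ℂ σ)
  obtain ⟨l, hl⟩ := hGs g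
  refine ⟨l, ?_⟩
  have h1 : (Normal.algHomEquivAut ℚ ℂ F).symm g = RingHom.equivRatAlgHom F ℂ σ :=
    Equiv.symm_apply_apply _ _
  ext x
  have h2 := congrArg (fun t => t x) h1
  have h3 : e (g x) = σ x := h2
  rw [← h3, ← hl, ← eRes_coe e he, hG]
  rfl

/-- Conjugation corresponds to minus one. -/
theorem conj_phi {d : ℕ} [NeZero d] (e : F →+* ℂ) (he : ∀ x, e x ∈ cyc d) (l : (ZMod d)ˣ) :
    ComplexEmbedding.conjugate (phi e he l) = phi e he (-l) := by
  have h1 : ((starRingEnd ℂ).comp ((algebraMap (cyc d) ℂ).comp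
      (sAut d l).toRingEquiv.toRingHom)) =
      (algebraMap (cyc d) ℂ).comp (sAut d (-l)).toRingEquiv.toRingHom := by
    apply cyc_ext
    change (starRingEnd ℂ) ((sAut d l ⟨zeta d, zeta_mem d⟩ : cyc d) : ℂ) =
      ((sAut d (-l) ⟨zeta d, zeta_mem d⟩ : cyc d) : ℂ)
    rw [sAut_zeta d l ⟨zeta d, zeta_mem d⟩ (zeta_prim d).pow_eq_one,
      sAut_zeta d (-l) ⟨zeta d, zeta_mem d⟩ (zeta_prim d).pow_eq_one]
    change (starRingEnd ℂ) (zeta d ^ (l : ZMod d).val) = zeta d ^ ((-l : (ZMod d)ˣ) : ZMod d).val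
    have h2 : (starRingEnd ℂ) (zeta d) = (zeta d)⁻¹ := by
      rw [← Complex.inv_eq_conj]
      exact (zeta_prim d).norm'_eq_one (NeZero.ne d)
    rw [map_pow, h2, inv_pow]
    apply inv_eq_of_mul_eq_one_right
    rw [← pow_add, (zeta_prim d).pow_eq_one_iff_dvd, ← ZMod.natCast_eq_zero_iff]
    push_cast
    simp
  ext x
  exact congrArg (fun t => t (eRes e he x)) h1

end GD
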