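import Mathlib

/-!
# Betti, de Rham and Hodge data: definitions

Common definitions for the reduction of the Gross-Deligne period conjecture
(problem MP_b23d8d_ag) to imaginary cyclic fields and Hodge classes.
-/

noncomputable section

namespace GD

open Complex

/-- The field of algebraic numbers inside the complex numbers. -/
abbrev Qbar : IntermediateField ℚ ℂ := algebraicClosure ℚ ℂ

/-- The relation `x ∼ y`: the quotient is a nonzero algebraic number. -/
def Sim (x y : ℂ) : Prop := x ≠ 0 ∧ y ≠ 0 ∧ IsAlgebraic ℚ (x / y)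

/-- A Betti, de Rham and Hodge structure of weight `wt`: a finite dimensional complex vector
space `W` (the space `H^m(X, ℂ)`) with a rational form `B` (Betti cohomology), a form `D` over the
algebraic numbers (the image of de Rham cohomology under the comparison isomorphism), the complex
conjugation of `W` attached to the rational form, and the Hodge decomposition. -/
structure Str where
  /-- the complex vector space -/
  W : Type
  [instAdd : AddCommGroup W]
  [instMod : Module ℂ W]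
  [instModQ : Module ℚ W]
  [instTow : IsScalarTower ℚ ℂ W]
  [instFin : FiniteDimensional ℂ W]
  /-- the weight -/
  wt : ℕ
  /-- the rational form -/
  B : Submodule ℚ W
  /-- the form over the algebraic numbers -/
  D : Submodule Qbar W
  /-- `ℂ ⊗ B = W` -/
  B_form : IsBaseChange ℂ B.subtype
  /-- `ℂ ⊗ D = W` -/
  D_form : IsBaseChange ℂ D.subtype
  /-- complex conjugation with respect to the rational form -/
  conj : W →ₛₗ[starRingEnd ℂ] W
  conj_B : ∀ b ∈ B, conj b = b
  /-- `hodge p` is the piece of type `(p, wt - p)` -/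
  hodge : ℕ → Submodule ℂ W
  hodge_internal : DirectSum.IsInternal hodge
  hodge_large : ∀ p, wt < p → hodge p = ⊥
  hodge_conj : ∀ p, p ≤ wt → ∀ x ∈ hodge p, conj x ∈ hodge (wt - p)

attribute [instance] Str.instAdd Str.instMod Str.instModQ Str.instTow Str.instFin

/-- The complexification `span ℂ H` of a rational subspace. -/
abbrev Str.cx (S : Str) (H : Submodule ℚ S.W) : Submodule ℂ S.W :=
  Submodule.span ℂ (H : Set S.W)

/-- `H` is a sub-Hodge structure: its complexification is the sum of its intersections with the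
Hodge pieces. -/
def SubHodge (S : Str) (H : Submodule ℚ S.W) : Prop := S.cx H ≤ ⨆ p, S.cx H ⊓ S.hodge p

section action

variable {S : Str} {F : Type} [Field F] {H : Submodule ℚ S.W}
  (ι : F →+* Module.End ℂ (S.cx H))

/-- The action preserves the rational subspace. -/
def RatAct : Prop := ∀ (f : F) (x : S.cx H), (x : S.W) ∈ H → (ι f x : S.W) ∈ H

/-- The action preserves the Hodge pieces. -/
def HodgeAct : Prop :=
  ∀ (f : F) (p : ℕ) (x : S.cx H), (x : S.W) ∈ S.hodge p → (ι f x : S.W) ∈ S.hodge p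

/-- `F` acts on `x` through the embedding `σ`. -/
def Eigen (σ : F →+* ℂ) (x : S.cx H) : Prop := ∀ f, ι f x = σ f • x

/-- Some nonzero de Rham vector is an eigenvector for `σ`. -/
def DeRhamLine (σ : F →+* ℂ) : Prop :=
  ∃ ω : S.cx H, (ω : S.W) ≠ 0 ∧ (ω : S.W) ∈ S.D ∧ Eigen ι σ ω

end action

/-- An admissible triple `(H, F, ι)` inside `S`: a sub-Hodge structure `H` of the rational form,
a number field `F` acting on the complexification `span ℂ H` by endomorphisms which preserve `H`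
and the Hodge pieces, with `dim H = [F : ℚ]`, such that every eigenline contains a nonzero de Rham
vector. -/
structure Adm (S : Str) (F : Type) [Field F] [NumberField F] where
  /-- the rational sub-Hodge structure -/
  H : Submodule ℚ S.W
  le : H ≤ S.B
  sub_hodge : SubHodge S H
  /-- the action of `F` -/
  ι : F →+* Module.End ℂ (S.cx H)
  ι_rat : RatAct ι
  ι_hodge : HodgeAct ι
  rank : Module.finrank ℚ H = Module.finrank ℚ F
  dR : ∀ σ : F →+* ℂ, DeRhamLine ι σ

section line

variable {S : Str} {F : Type} [Field F] [NumberField F] (A : Adm S F) (σ : F →+* ℂ)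

/-- Membership in the eigenline `H_σ`. -/
def Adm.OnLine (w : S.W) : Prop := ∃ h : w ∈ S.cx A.H, Eigen A.ι σ ⟨w, h⟩

theorem Adm.line_add {a b : S.W} (ha : A.OnLine σ a) (hb : A.OnLine σ b) :
    A.OnLine σ (a + b) := by
  obtain ⟨ha, ha'⟩ := ha
  obtain ⟨hb, hb'⟩ := hb
  refine ⟨add_mem ha hb, fun f => ?_⟩
  have : (⟨a + b, add_mem ha hb⟩ : S.cx A.H) = ⟨a, ha⟩ + ⟨b, hb⟩ := rfl
  rw [this, map_add, ha' f, hb' f, smul_add]

theorem Adm.line_zero : A.OnLine σ 0 :=
  ⟨zero_mem _, fun f => by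
    have : (⟨0, zero_mem _⟩ : S.cx A.H) = 0 := rfl
    rw [this, map_zero, smul_zero]⟩

theorem Adm.line_smul (c : ℂ) {a : S.W} (ha : A.OnLine σ a) : A.OnLine σ (c • a) := by
  obtain ⟨ha, ha'⟩ := ha
  refine ⟨Submodule.smul_mem _ c ha, fun f => ?_⟩
  have : (⟨c • a, Submodule.smul_mem _ c ha⟩ : S.cx A.H) = c • ⟨a, ha⟩ := rfl
  rw [this, map_smul, ha' f, smul_comm]

/-- The eigenline `H_σ` of an admissible triple. -/
def Adm.line : Submodule ℂ S.W where
  carrier := {w | A.OnLine σ w}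
  add_mem' := A.line_add σ
  zero_mem' := A.line_zero σ
  smul_mem' := fun c _ h => A.line_smul σ c h

end line

/-- `p` records the Hodge types of the eigenlines of `A`. -/
def Adm.HasType {S : Str} {F : Type} [Field F] [NumberField F] (A : Adm S F)
    (p : (F →+* ℂ) → ℕ) : Prop :=
  ∀ σ, A.line σ ≤ S.hodge (p σ)

/-- The linear form `γ` is rational and not zero on `H`. -/
def Adm.IsRatForm {S : Str} {F : Type} [Field F] [NumberField F] (A : Adm S F)
    (γ : S.W →ₗ[ℂ] ℂ) : Prop :=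
  (∀ h ∈ A.H, ∃ q : ℚ, γ h = q) ∧ ∃ h ∈ A.H, γ h ≠ 0

/-- `z` is a value of the period of `A` at `σ`: `z = γ(ω)` for a de Rham vector `ω ≠ 0` in the
line `H_σ` and a linear form `γ` which is rational and not zero on `H`. -/
def Adm.IsPeriod {S : Str} {F : Type} [Field F] [NumberField F] (A : Adm S F)
    (σ : F →+* ℂ) (z : ℂ) : Prop :=
  ∃ (γ : S.W →ₗ[ℂ] ℂ) (ω : S.W), A.IsRatForm γ ∧ ω ≠ 0 ∧ ω ∈ S.D ∧ ω ∈ A.line σ ∧ z = γ ω

section pol

variable (S : Str) (E : S.W →ₗ[ℂ] S.W →ₗ[ℂ] ℂ)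

/-- `E` is rational on the rational form. -/
def PolRat : Prop := ∀ x ∈ S.B, ∀ y ∈ S.B, ∃ q : ℚ, E x y = q

/-- `E` takes values in `(2 π i) ^ wt` times the algebraic numbers on the de Rham form. -/
def PolDeRham : Prop :=
  ∀ x ∈ S.D, ∀ y ∈ S.D, ∃ a : ℂ, IsAlgebraic ℚ a ∧ E x y = (2 * Real.pi * I) ^ S.wt * a

/-- First Hodge-Riemann relation. -/
def PolOrth : Prop :=
  ∀ p q, p + q ≠ S.wt → ∀ x ∈ S.hodge p, ∀ y ∈ S.hodge q, E x y = 0

/-- Second Hodge-Riemann relation: `i ^ (p - q) E(x, conj x) > 0` for `x ≠ 0` of type `(p, q)`. -/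
def PolPos : Prop :=
  ∀ p, p ≤ S.wt → ∀ x ∈ S.hodge p, x ≠ 0 →
    ∃ r : ℝ, 0 < r ∧ I ^ (2 * (p : ℤ) - S.wt) * E x (S.conj x) = r

/-- A polarisation compatible with the de Rham form. -/
structure Pol where
  /-- the bilinear form -/
  E : S.W →ₗ[ℂ] S.W →ₗ[ℂ] ℂ
  rat : PolRat S E
  dR : PolDeRham S E
  orth : PolOrth S E
  pos : PolPos S E

end pol

section tensor

variable (S T R : Str) (μ : S.W →ₗ[ℂ] T.W →ₗ[ℂ] R.W)

/-- The map `S ⊗ T → R` given by `μ` is injective. -/
def TensorInj : Prop := Function.Injective (TensorProduct.lift μ)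

/-- `μ` respects the rational forms. -/
def TensorBetti : Prop := ∀ x ∈ S.B, ∀ y ∈ T.B, μ x y ∈ R.B

/-- `μ` respects the forms over the algebraic numbers. -/
def TensorDeRham : Prop := ∀ x ∈ S.D, ∀ y ∈ T.D, μ x y ∈ R.D

/-- `μ` adds Hodge types. -/
def TensorHodge : Prop :=
  ∀ p q, ∀ x ∈ S.hodge p, ∀ y ∈ T.hodge q, μ x y ∈ R.hodge (p + q)

end tensor

/-- Tensor products inside the class `C` (the Kunneth formula for products of varieties). -/
def Kunneth (C : Str → Prop) : Prop :=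
  ∀ S T : Str, C S → C T → ∃ R : Str, C R ∧ R.wt = S.wt + T.wt ∧
    ∃ μ : S.W →ₗ[ℂ] T.W →ₗ[ℂ] R.W,
      TensorInj S T R μ ∧ TensorBetti S T R μ ∧ TensorDeRham S T R μ ∧ TensorHodge S T R μ

/-- The root of unity `exp (2 π i / d)`. -/
def zeta (d : ℕ) : ℂ := exp (2 * Real.pi * I / d)

/-- The cyclotomic field `ℚ(μ_d)` inside the complex numbers. -/
def cyc (d : ℕ) : IntermediateField ℚ ℂ := IntermediateField.adjoin ℚ {zeta d}

/-- The embedding `e` has image inside `ℚ(μ_d)`, `d ≥ 1`. -/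
def LiesIn {F : Type} [Field F] (e : F →+* ℂ) (d : ℕ) : Prop := 0 < d ∧ ∀ x, e x ∈ cyc d

/-- The conductor of a number field embedded in some cyclotomic field by `e`. -/
def conductor {F : Type} [Field F] (e : F →+* ℂ) : ℕ := sInf {d | LiesIn e d}

/-- `σ = φ(l)`: the embedding `σ` is the embedding `e` followed by the automorphism of `ℚ(μ_d)`
which raises roots of unity to the power `l`. -/
def IsPhi {F : Type} [Field F] (e : F →+* ℂ) (d : ℕ) (l : (ZMod d)ˣ) (σ : F →+* ℂ) : Prop :=
  ∃ s : cyc d →+* ℂ, (∀ z : cyc d, (z : ℂ) = zeta d → s z = zeta d ^ (l : ZMod d).val) ∧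
    ∀ x, ∀ z : cyc d, (z : ℂ) = e x → σ x = s z

/-- The gamma product attached to `ε` and the unit `l`. -/
def gammaProd (d : ℕ) [NeZero d] (ε : ZMod d → ℚ) (l : (ZMod d)ˣ) : ℝ :=
  ∏ a ∈ Finset.univ.erase (0 : ZMod d),
    Real.Gamma (1 - (a.val : ℝ) / d) ^ ((ε (a * ((l⁻¹ : (ZMod d)ˣ) : ZMod d)) : ℚ) : ℝ)

/-- The Gross-Deligne relation for the admissible triple `A`, with the cyclotomic level `d`. -/
def RelationAt {S : Str} {F : Type} [Field F] [NumberField F] (A : Adm S F) (e : F →+* ℂ)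
    (d : ℕ) [NeZero d] : Prop :=
  ∀ (p : (F →+* ℂ) → ℕ), A.HasType p → ∀ ε : ZMod d → ℚ,
    (∀ (l : (ZMod d)ˣ) (σ : F →+* ℂ), IsPhi e d l σ →
      (d : ℚ) * p σ = ∑ a ∈ Finset.univ.erase (0 : ZMod d), ε a * (((l : ZMod d) * a).val : ℚ)) →
    ∀ (l : (ZMod d)ˣ) (σ : F →+* ℂ), IsPhi e d l σ → ∀ z, A.IsPeriod σ z →
      Sim z (gammaProd d ε l)

/-- The Gross-Deligne relation for the admissible triple `A` at the conductor of `F`. -/
def Relation {S : Str} {F : Type} [Field F] [NumberField F] (A : Adm S F) (e : F →+* ℂ) : Prop :=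
  ∀ (d : ℕ) [NeZero d], d = conductor e → RelationAt A e d

/-- The Gross-Deligne conjecture for all structures in the class `C`. -/
def GrossDeligne (C : Str → Prop) : Prop :=
  ∀ S, C S → ∀ (F : Type) [Field F] [NumberField F] (e : F →+* ℂ), (∃ d, LiesIn e d) →
    ∀ A : Adm S F, Relation A e

end GD
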