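import Mathlib

/-!
# Number field lemmas: dual bases and embeddings

Orthogonality of a basis and its trace dual with respect to the complex embeddings.
-/

noncomputable section

namespace GD

/-- Trace of a number field as a sum over the complex embeddings. -/
theorem trace_sum (F : Type) [Field F] [NumberField F] (x : F) :
    ((Algebra.trace ℚ F x : ℚ) : ℂ) = ∑ σ : F →+* ℂ, σ x := by
  have h := trace_eq_sum_embeddings (K := ℚ) (L := F) (E := ℂ) (x := x)
  rw [← eq_ratCast (algebraMap ℚ ℂ), h]
  refine (Fintype.sum_equiv (RingHom.equivRatAlgHom F ℂ) _ _ ?_).symm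
  intro σ
  simp [RingHom.equivRatAlgHom_apply]

/-- There are `[F : ℚ]` complex embeddings. -/
theorem card_emb (F : Type) [Field F] [NumberField F] :
    Fintype.card (F →+* ℂ) = Module.finrank ℚ F :=
  NumberField.Embeddings.card F ℂ

/-- A fixed rational basis of the number field. -/
def bas (F : Type) [Field F] [NumberField F] :
    Module.Basis (Fin (Module.finrank ℚ F)) ℚ F := Module.finBasis ℚ F

/-- The dual basis for the trace form. -/
def bad (F : Type) [Field F] [NumberField F] :
    Module.Basis (Fin (Module.finrank ℚ F)) ℚ F :=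
  (Algebra.traceForm ℚ F).dualBasis (traceForm_nondegenerate ℚ F) (bas F)

theorem trace_bad_bas (F : Type) [Field F] [NumberField F] (i j : Fin (Module.finrank ℚ F)) :
    Algebra.trace ℚ F (bad F i * bas F j) = if j = i then 1 else 0 :=
  LinearMap.BilinForm.apply_dualBasis_left (traceForm_nondegenerate ℚ F) (bas F) i j

open scoped Classical in
/-- Orthogonality relation. -/
theorem orth (F : Type) [Field F] [NumberField F] (σ τ : F →+* ℂ) :
    ∑ i, σ (bad F i) * τ (bas F i) = if τ = σ then 1 else 0 := by
  let N : Matrix (Fin (Module.finrank ℚ F)) (F →+* ℂ) ℂ := fun i σ => σ (bad F i)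
  let M : Matrix (F →+* ℂ) (Fin (Module.finrank ℚ F)) ℂ := fun σ i => σ (bas F i)
  have h1 : N * M = 1 := by
    ext i j
    rw [Matrix.mul_apply]
    have := trace_sum F (bad F i * bas F j)
    rw [trace_bad_bas] at this
    simp only [N, M]
    simp only [map_mul] at this
    rw [← this, Matrix.one_apply]
    by_cases hij : i = j
    · subst hij; simp
    · rw [if_neg hij, if_neg (fun h => hij h.symm)]; simp
  have h2 : M * N = 1 := by
    refine (Matrix.mul_eq_one_comm_of_card_eq _ _ _ ?_).1 h1
    rw [card_emb, Fintype.card_fin]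
  have h3 := congrFun (congrFun h2 τ) σ
  rw [Matrix.mul_apply, Matrix.one_apply] at h3
  simp only [N, M] at h3
  rw [← h3]
  exact Finset.sum_congr rfl fun i _ => mul_comm _ _

/-- Recover the vectors from the twisted sums. -/
theorem recover (F : Type) [Field F] [NumberField F] {W : Type} [AddCommGroup W] [Module ℂ W]
    (v : (F →+* ℂ) → W) (σ : F →+* ℂ) :
    v σ = ∑ i, σ (bad F i) • ∑ τ : F →+* ℂ, τ (bas F i) • v τ := by
  classical
  simp only [Finset.smul_sum, smul_smul]
  rw [Finset.sum_comm]
  simp only [← Finset.sum_smul, orth, ite_smul, one_smul, zero_smul, Finset.sum_ite_eq',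
    Finset.mem_univ, if_true]

/-- Linear independence of the embeddings. -/
theorem emb_lin (F : Type) [Field F] [NumberField F] {W : Type} [AddCommGroup W] [Module ℂ W]
    (v : (F →+* ℂ) → W) (h : ∀ x : F, ∑ σ, σ x • v σ = 0) (σ : F →+* ℂ) : v σ = 0 := by
  rw [recover F v σ]
  simp [h]

/-- A rational linear functional on `F` is a trace. -/
theorem functional_trace (F : Type) [Field F] [NumberField F] (f : F →ₗ[ℚ] ℚ) :
    ∃ g : F, ∀ x, f x = Algebra.trace ℚ F (g * x) := by
  refine ⟨∑ i, f (bas F i) • bad F i, fun x => ?_⟩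
  have hx : x = ∑ i, (bas F).repr x i • bas F i := ((bas F).sum_repr x).symm
  have h1 : Algebra.trace ℚ F ((∑ i, f (bas F i) • bad F i) * x)
      = ∑ i, f (bas F i) * (bas F).repr x i := by
    rw [Finset.sum_mul, map_sum]
    refine Finset.sum_congr rfl fun i _ => ?_
    rw [smul_mul_assoc, map_smul, smul_eq_mul]
    congr 1
    conv_lhs => rw [hx]
    rw [Finset.mul_sum, map_sum]
    simp only [mul_smul_comm, map_smul, trace_bad_bas, smul_eq_mul, mul_ite, mul_one, mul_zero,
      Finset.sum_ite_eq', Finset.mem_univ, if_true]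
  rw [h1]
  conv_lhs => rw [hx]
  rw [map_sum]
  simp only [map_smul, smul_eq_mul]
  exact Finset.sum_congr rfl fun i _ => mul_comm _ _

/-- Images of elements of a number field are algebraic. -/
theorem emb_alg (F : Type) [Field F] [NumberField F] (σ : F →+* ℂ) (x : F) :
    IsAlgebraic ℚ (σ x) := by
  have h : IsAlgebraic ℚ x := Algebra.IsAlgebraic.isAlgebraic x
  exact h.algHom (RingHom.equivRatAlgHom F ℂ σ)

end GD
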