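import Pool.Agent.H5.GD.Defs
import Pool.Agent.H5.GD.Field

/-!
# Families of eigenvectors attached to admissible triples
-/

noncomputable section

namespace GD

open Complex

/-! ### The relation `Sim` -/

theorem Sim.refl {x : ℂ} (hx : x ≠ 0) : Sim x x :=
  ⟨hx, hx, by rw [div_self hx]; exact isAlgebraic_one⟩

theorem Sim.symm {x y : ℂ} (h : Sim x y) : Sim y x :=
  ⟨h.2.1, h.1, by rw [← inv_div]; exact h.2.2.inv⟩

theorem Sim.trans {x y z : ℂ} (h : Sim x y) (h' : Sim y z) : Sim x z :=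
  ⟨h.1, h'.2.1, by
    have : x / z = (x / y) * (y / z) := by
      field_simp [h.2.1, h'.2.1]
    rw [this]
    exact h.2.2.mul h'.2.2⟩

theorem Sim.mul {x y x' y' : ℂ} (h : Sim x y) (h' : Sim x' y') : Sim (x * x') (y * y') :=
  ⟨mul_ne_zero h.1 h'.1, mul_ne_zero h.2.1 h'.2.1, by
    rw [mul_div_mul_comm]
    exact h.2.2.mul h'.2.2⟩

theorem Sim.of_alg {a : ℂ} (ha : a ≠ 0) (h : IsAlgebraic ℚ a) {x : ℂ} (hx : x ≠ 0) :
    Sim (a * x) x :=
  ⟨mul_ne_zero ha hx, hx, by rw [mul_div_assoc, div_self hx, mul_one]; exact h⟩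

/-! ### Forms -/

theorem form_lin {k : Type*} [Field k] [Algebra k ℂ] {W : Type} [AddCommGroup W] [Module ℂ W]
    [Module k W] [IsScalarTower k ℂ W] (L : Submodule k W) (h : IsBaseChange ℂ L.subtype)
    {ι : Type*} (v : ι → W) (hv : ∀ i, v i ∈ L) (hl : LinearIndependent k v) :
    LinearIndependent ℂ v := by
  let v' : ι → L := fun i => ⟨v i, hv i⟩
  have hl' : LinearIndependent k v' := by
    apply LinearIndependent.of_comp L.subtype
    exact hl
  have h1 := hl'.linearIndepOn_id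
  let b := Module.Basis.extend h1
  let bC := IsBaseChange.basis b h
  have h2 : LinearIndependent ℂ bC := bC.linearIndependent
  have hmem : ∀ i, v' i ∈ h1.extend (Set.subset_univ _) := fun i =>
    h1.subset_extend _ (Set.mem_range_self i)
  have h3 : LinearIndependent ℂ (bC ∘ fun i => (⟨v' i, hmem i⟩ : h1.extend (Set.subset_univ _))) :=
    h2.comp _ (fun i j hij => hl'.injective (by simpa using congrArg Subtype.val hij))
  convert h3 using 1
  funext i
  simp only [Function.comp, bC, IsBaseChange.basis_apply]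
  change v i = L.subtype (Module.Basis.extend h1 ⟨v' i, hmem i⟩)
  rw [Module.Basis.extend_apply_self]
  rfl

theorem form_functional {k : Type*} [Field k] [Algebra k ℂ] {W : Type} [AddCommGroup W]
    [Module ℂ W] [Module k W] [IsScalarTower k ℂ W] (L : Submodule k W)
    (h : IsBaseChange ℂ L.subtype) (w : W) (hw : w ∈ L) (hne : w ≠ 0) :
    ∃ γ : W →ₗ[ℂ] ℂ, (∀ b ∈ L, ∃ q : k, γ b = algebraMap k ℂ q) ∧ γ w ≠ 0 := by
  obtain ⟨f, hf⟩ := Module.Projective.exists_dual_ne_zero k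
    (show (⟨w, hw⟩ : L) ≠ 0 from fun h0 => hne (congrArg Subtype.val h0))
  refine ⟨h.lift ((Algebra.linearMap k ℂ).comp f), ?_, ?_⟩
  · intro b hb
    refine ⟨f ⟨b, hb⟩, ?_⟩
    have := h.lift_eq ((Algebra.linearMap k ℂ).comp f) ⟨b, hb⟩
    simpa using this
  · have := h.lift_eq ((Algebra.linearMap k ℂ).comp f) ⟨w, hw⟩
    simp only [Submodule.subtype_apply] at this
    rw [this]
    simpa using hf

theorem Str.D_smul (S : Str) {a : ℂ} (ha : IsAlgebraic ℚ a) {w : S.W} (hw : w ∈ S.D) :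
    a • w ∈ S.D := by
  have h := S.D.smul_mem (⟨a, mem_algebraicClosure_iff.2 ha⟩ : Qbar) hw
  exact h

theorem Str.B_smul (S : Str) (q : ℚ) {w : S.W} (hw : w ∈ S.B) : (q : ℂ) • w ∈ S.B := by
  have h := S.B.smul_mem q hw
  have e : (q : ℂ) • w = q • w := by
    rw [← eq_ratCast (algebraMap ℚ ℂ), algebraMap_smul]
  rw [e]
  exact h

theorem Str.D_ratio (S : Str) {a b : ℂ} {w : S.W} (hw : w ≠ 0) (ha : a ≠ 0) (h1 : a • w ∈ S.D)
    (h2 : b • w ∈ S.D) : IsAlgebraic ℚ (b / a) := by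
  obtain ⟨γ, hγ, hne⟩ := form_functional S.D S.D_form (a • w) h1 (smul_ne_zero ha hw)
  obtain ⟨q1, hq1⟩ := hγ _ h1
  obtain ⟨q2, hq2⟩ := hγ _ h2
  rw [map_smul, smul_eq_mul] at hq1 hq2 hne
  have hγw : γ w ≠ 0 := right_ne_zero_of_mul hne
  have : b / a = (algebraMap Qbar ℂ q2) / (algebraMap Qbar ℂ q1) := by
    rw [← hq1, ← hq2]
    field_simp
  rw [this]
  exact (mem_algebraicClosure_iff.1 q2.2).mul (mem_algebraicClosure_iff.1 q1.2).inv

/-! ### Families -/

/-- A family of eigenvectors: `v σ` spans the line `H_σ`, and `c σ` is the period. -/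
structure Fam (S : Str) (F : Type) [Field F] [NumberField F] where
  v : (F →+* ℂ) → S.W
  c : (F →+* ℂ) → ℂ
  p : (F →+* ℂ) → ℕ
  lin : LinearIndependent ℂ v
  rat : ∀ x : F, ∑ σ, σ x • v σ ∈ S.B
  hdg : ∀ σ, v σ ∈ S.hodge (p σ)
  c_ne : ∀ σ, c σ ≠ 0
  dR : ∀ σ, c σ • v σ ∈ S.D

variable {S : Str} {F : Type} [Field F] [NumberField F]

/-- The family `f` is attached to the triple `A`. -/
structure Attached (A : Adm S F) (f : Fam S F) : Prop where
  line : ∀ σ, f.v σ ∈ A.line σ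
  mem : ∀ h, h ∈ A.H ↔ ∃ x : F, h = ∑ σ, σ x • f.v σ

theorem Attached.span_le {A : Adm S F} {f : Fam S F} (h : Attached A f) :
    Submodule.span ℂ (A.H : Set S.W) ≤ Submodule.span ℂ (Set.range f.v) := by
  rw [Submodule.span_le]
  intro w hw
  obtain ⟨x, rfl⟩ := (h.mem w).1 hw
  exact Submodule.sum_mem _ fun σ _ => Submodule.smul_mem _ _
    (Submodule.subset_span (Set.mem_range_self σ))

theorem Attached.line_eq {A : Adm S F} {f : Fam S F} (h : Attached A f) {σ : F →+* ℂ} {w : S.W}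
    (hw : w ∈ A.line σ) : ∃ t : ℂ, w = t • f.v σ := by
  classical
  obtain ⟨hm, he⟩ := hw
  have h1 := h.span_le hm
  rw [Submodule.mem_span_range_iff_exists_fun] at h1
  obtain ⟨a, ha⟩ := h1
  refine ⟨a σ, ?_⟩
  have key : ∀ x : F, ∑ τ, (a τ * (τ x - σ x)) • f.v τ = 0 := by
    intro x
    have e1 : A.ι x ⟨w, hm⟩ = ∑ τ, a τ • (τ x • (⟨f.v τ, (h.line τ).1⟩ :
        Submodule.span ℂ (A.H : Set S.W))) := by
      have : (⟨w, hm⟩ : Submodule.span ℂ (A.H : Set S.W)) = ∑ τ, a τ • (⟨f.v τ, (h.line τ).1⟩ :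
        Submodule.span ℂ (A.H : Set S.W)) := by
        apply Subtype.ext
        simp [← ha]
      rw [this, map_sum]
      refine Finset.sum_congr rfl fun τ _ => ?_
      rw [map_smul, (h.line τ).2 x]
    rw [he x] at e1
    have e2 := congrArg Subtype.val e1
    simp only [Submodule.coe_smul, Submodule.coe_sum, ← ha] at e2
    simp only [mul_sub, sub_smul, Finset.sum_sub_distrib, mul_smul]
    rw [← e2, Finset.smul_sum, sub_eq_zero]
    exact Finset.sum_congr rfl fun τ _ => smul_comm _ _ _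
  have h0 : ∀ τ, τ ≠ σ → a τ = 0 := by
    intro τ hτ
    obtain ⟨x, hx⟩ : ∃ x, τ x ≠ σ x := by
      by_contra hcon
      push Not at hcon
      exact hτ (RingHom.ext hcon)
    have := Fintype.linearIndependent_iff.1 f.lin _ (key x) τ
    exact (mul_eq_zero.1 this).resolve_right (sub_ne_zero.2 hx)
  rw [← ha, Finset.sum_eq_single σ]
  · intro τ _ hτ
    rw [h0 τ hτ, zero_smul]
  · intro hσ
    exact absurd (Finset.mem_univ σ) hσ

theorem Fam.v_ne (f : Fam S F) (σ : F →+* ℂ) : f.v σ ≠ 0 := f.lin.ne_zero σ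

/-- Values of rational functionals on the eigenvectors. -/
theorem Fam.functional (f : Fam S F) (γ : S.W →ₗ[ℂ] ℂ)
    (hγ : ∀ x : F, ∃ q : ℚ, γ (∑ σ, σ x • f.v σ) = q) (hne : ∃ x : F, γ (∑ σ, σ x • f.v σ) ≠ 0) :
    ∃ g : F, g ≠ 0 ∧ ∀ σ, γ (f.v σ) = σ g := by
  choose q hq using hγ
  let l : F →ₗ[ℚ] ℚ :=
    { toFun := q
      map_add' := by
        intro x y
        have : ((q (x + y) : ℚ) : ℂ) = ((q x + q y : ℚ) : ℂ) := by
          rw [← hq, Rat.cast_add, ← hq, ← hq, ← map_add, ← Finset.sum_add_distrib]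
          simp only [map_add, add_smul]
        exact_mod_cast this
      map_smul' := by
        intro r x
        have : ((q (r • x) : ℚ) : ℂ) = ((r * q x : ℚ) : ℂ) := by
          rw [← hq, Rat.cast_mul, ← hq, ← smul_eq_mul, ← map_smul, Finset.smul_sum]
          congr 1
          refine Finset.sum_congr rfl fun σ _ => ?_
          rw [smul_smul, Algebra.smul_def, map_mul]
          congr 2
          simp
        simpa using (by exact_mod_cast this : q (r • x) = r * q x) }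
  obtain ⟨g, hg⟩ := functional_trace F l
  have key : ∀ σ : F →+* ℂ, γ (f.v σ) - σ g = 0 := by
    refine emb_lin F (W := ℂ) (fun σ => γ (f.v σ) - σ g) ?_
    intro x
    simp only [smul_sub, Finset.sum_sub_distrib]
    have h1 : ∑ σ : F →+* ℂ, σ x • γ (f.v σ) = γ (∑ σ, σ x • f.v σ) := by
      rw [map_sum]
      exact Finset.sum_congr rfl fun σ _ => (map_smul _ _ _).symm
    have h2 : ∑ σ : F →+* ℂ, σ x • σ g = ((Algebra.trace ℚ F (g * x) : ℚ) : ℂ) := by
      rw [trace_sum]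
      exact Finset.sum_congr rfl fun σ _ => by rw [smul_eq_mul, map_mul, mul_comm]
    rw [h1, h2, hq, ← hg]
    exact sub_self _
  have key' : ∀ σ, γ (f.v σ) = σ g := fun σ => sub_eq_zero.1 (key σ)
  refine ⟨g, ?_, key'⟩
  rintro rfl
  obtain ⟨x, hx⟩ := hne
  apply hx
  rw [map_sum]
  exact Finset.sum_eq_zero fun σ _ => by rw [map_smul, key', map_zero, smul_zero]

/-- The period of a triple is the constant of the attached family. -/
theorem Attached.period_sim {A : Adm S F} {f : Fam S F} (h : Attached A f) {σ : F →+* ℂ} {z : ℂ}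
    (hz : A.IsPeriod σ z) : Sim z (f.c σ) := by
  obtain ⟨γ, ω, ⟨hrat, h0, hh0, hne⟩, hω, hωD, hωl, rfl⟩ := hz
  obtain ⟨g, hg0, hg⟩ := f.functional γ
    (fun x => hrat _ ((h.mem _).2 ⟨x, rfl⟩))
    (by
      obtain ⟨x, hx⟩ := (h.mem h0).1 hh0
      exact ⟨x, hx ▸ hne⟩)
  obtain ⟨t, rfl⟩ := h.line_eq hωl
  have ht : t ≠ 0 := fun h0 => hω (by rw [h0, zero_smul])
  have h1 : IsAlgebraic ℚ (t / f.c σ) := S.D_ratio (f.v_ne σ) (f.c_ne σ) (f.dR σ) hωD
  have hσg : σ g ≠ 0 := (map_ne_zero σ).2 hg0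
  refine ⟨?_, f.c_ne σ, ?_⟩
  · rw [map_smul, hg, smul_eq_mul]
    exact mul_ne_zero ht hσg
  · rw [map_smul, hg, smul_eq_mul, mul_comm, mul_div_assoc]
    exact (emb_alg F σ g).mul h1

/-- Periods exist. -/
theorem Attached.exists_period {A : Adm S F} {f : Fam S F} (h : Attached A f) (σ : F →+* ℂ) :
    ∃ z, A.IsPeriod σ z := by
  have hB : (∑ τ : F →+* ℂ, τ 1 • f.v τ) ≠ 0 := by
    intro h0
    have := Fintype.linearIndependent_iff.1 f.lin _ h0 σ
    rw [map_one] at this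
    exact one_ne_zero this
  obtain ⟨γ, hγ, hne⟩ := form_functional S.B S.B_form _ (f.rat 1) hB
  refine ⟨_, γ, f.c σ • f.v σ, ⟨?_, ⟨_, (h.mem _).2 ⟨1, rfl⟩, hne⟩⟩,
    smul_ne_zero (f.c_ne σ) (f.v_ne σ), f.dR σ, Submodule.smul_mem _ _ (h.line σ), rfl⟩
  intro w hw
  obtain ⟨q, hq⟩ := hγ w (A.le hw)
  exact ⟨q, by rw [hq]; simp⟩

end GD
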