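import Pool.Agent.H5.GD.Rel

/-!
# Change of level
-/

noncomputable section

namespace GD

open Complex NumberField

theorem zeta_pow (d k : ℕ) [NeZero d] [NeZero k] : zeta (d * k) ^ k = zeta d := by
  unfold zeta
  rw [← Complex.exp_nat_mul]
  congr 1
  have h1 : (d : ℂ) ≠ 0 := by exact_mod_cast NeZero.ne d
  have h2 : (k : ℂ) ≠ 0 := by exact_mod_cast NeZero.ne k
  push_cast
  field_simp

theorem cyc_le (d k : ℕ) [NeZero d] [NeZero k] : cyc d ≤ cyc (d * k) := by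
  unfold cyc
  rw [IntermediateField.adjoin_simple_le_iff, ← zeta_pow d k]
  exact pow_mem (IntermediateField.subset_adjoin ℚ _ (Set.mem_singleton _)) k

variable {F : Type} [Field F] [NumberField F]

theorem phi_level {D d k : ℕ} (hD : D = d * k) [NeZero D] [NeZero d] [NeZero k] (e : F →+* ℂ)
    (he : ∀ x, e x ∈ cyc d) (he' : ∀ x, e x ∈ cyc D) (l : (ZMod D)ˣ) :
    phi e he' l = phi e he (ZMod.unitsMap (Dvd.intro k hD.symm) l) := by
  subst hD
  rw [← isPhi_iff]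
  refine ⟨((algebraMap (cyc (d * k)) ℂ).comp (sAut (d * k) l).toRingEquiv.toRingHom).comp
    (IntermediateField.inclusion (cyc_le d k)).toRingHom, ?_, ?_⟩
  · intro z hz
    have hz' : z = ⟨zeta d, zeta_mem d⟩ := Subtype.ext hz
    subst hz'
    change ((sAut (d * k) l ⟨zeta d, cyc_le d k (zeta_mem d)⟩ : cyc (d * k)) : ℂ) = _
    rw [sAut_zeta (d * k) l ⟨zeta d, cyc_le d k (zeta_mem d)⟩ (by
      change zeta d ^ (d * k) = 1
      rw [pow_mul, (zeta_prim d).pow_eq_one, one_pow])]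
    change zeta d ^ (l : ZMod (d * k)).val = _
    rw [ZMod.unitsMap_val, ZMod.cast_eq_val, ZMod.val_natCast]
    exact pow_eq_pow_mod _ (zeta_prim d).pow_eq_one
  · intro x z hz
    have hz' : z = eRes e he x := Subtype.ext hz
    subst hz'
    rfl

/-- The relation for one choice of `ε`. -/
def RelEx {V : Type*} [AddCommGroup V] [Module ℚ V] (cls : ℂ → V) (d : ℕ) [NeZero d]
    (e : F →+* ℂ) (he : ∀ x, e x ∈ cyc d) (c : (F →+* ℂ) → ℂ) (p : (F →+* ℂ) → ℕ) : Prop :=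
  ∃ ε : ZMod d → ℚ, (∀ l, tsum' d (fun x => x) ε l = p (phi e he l)) ∧
    ∀ l, cls (c (phi e he l)) = tsum' d (gam cls) ε l

/-- The relation for all choices of `ε`. -/
def RelAll {V : Type*} [AddCommGroup V] [Module ℚ V] (cls : ℂ → V) (d : ℕ) [NeZero d]
    (e : F →+* ℂ) (he : ∀ x, e x ∈ cyc d) (c : (F →+* ℂ) → ℂ) (p : (F →+* ℂ) → ℕ) : Prop :=
  ∀ ε : ZMod d → ℚ, (∀ l, tsum' d (fun x => x) ε l = p (phi e he l)) →
    ∀ l, cls (c (phi e he l)) = tsum' d (gam cls) ε l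

variable {V : Type*} [AddCommGroup V] [Module ℚ V] {cls : ℂ → V}

theorem RelEx.all (hΓ : GammaSpec V cls) {d : ℕ} [NeZero d] {e : F →+* ℂ}
    {he : ∀ x, e x ∈ cyc d} {c : (F →+* ℂ) → ℂ} {p : (F →+* ℂ) → ℕ}
    (h : RelEx cls d e he c p) : RelAll cls d e he c p := by
  obtain ⟨ε, h1, h2⟩ := h
  intro ε' h' l
  rw [h2]
  exact ko' hΓ d ε ε' (fun l => by rw [h1, h']) l

theorem RelEx.infl {D d k : ℕ} (hD : D = d * k) [NeZero D] [NeZero d] [NeZero k] {e : F →+* ℂ}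
    {he : ∀ x, e x ∈ cyc d} (he' : ∀ x, e x ∈ cyc D) {c : (F →+* ℂ) → ℂ} {p : (F →+* ℂ) → ℕ}
    (h : RelEx cls d e he c p) : RelEx cls D e he' c p := by
  obtain ⟨ε, h1, h2⟩ := h
  have hphi := phi_level hD e he he'
  subst hD
  refine ⟨GD.infl d k ε, ?_, ?_⟩
  · intro l
    rw [tsum_infl, h1, hphi]
  · intro l
    rw [tsum_infl, hphi, h2]

theorem RelAll.defl {D d k : ℕ} (hD : D = d * k) [NeZero D] [NeZero d] [NeZero k] {e : F →+* ℂ}
    (he : ∀ x, e x ∈ cyc d) {he' : ∀ x, e x ∈ cyc D} {c : (F →+* ℂ) → ℂ} {p : (F →+* ℂ) → ℕ}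
    (h : RelAll cls D e he' c p) : RelAll cls d e he c p := by
  have hphi := phi_level hD e he he'
  subst hD
  intro ε h1 l
  obtain ⟨L, rfl⟩ := ZMod.unitsMap_surjective (Dvd.intro k rfl : d ∣ d * k) l
  have h2 := h (GD.infl d k ε) (fun L => by rw [tsum_infl, h1, hphi]) L
  rw [tsum_infl, hphi] at h2
  exact h2

/-- Change of level in general. -/
theorem RelAll.change (hΓ : GammaSpec V cls) {d d' : ℕ} [NeZero d] [NeZero d'] (hd : 3 ≤ d)
    {e : F →+* ℂ} {he : ∀ x, e x ∈ cyc d} (he' : ∀ x, e x ∈ cyc d') {c : (F →+* ℂ) → ℂ}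
    {p : (F →+* ℂ) → ℕ} {m : ℕ} (hp : ∀ σ, p σ + p (ComplexEmbedding.conjugate σ) = m)
    (h : RelAll cls d e he c p) : RelAll cls d' e he' c p := by
  obtain ⟨ε, hε⟩ := ex' hΓ d hd m (fun l => (p (phi e he l) : ℚ)) (fun l => by
    rw [← conj_phi]
    exact_mod_cast hp (phi e he l))
  have h1 : RelEx cls d e he c p := ⟨ε, hε, h ε hε⟩
  have hle : ∀ x, e x ∈ cyc (d * d') := fun x => cyc_le d d' (he x)
  have : NeZero (d * d') := ⟨mul_ne_zero (NeZero.ne d) (NeZero.ne d')⟩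
  have h2 : RelEx cls (d * d') e hle c p := h1.infl rfl hle
  exact (h2.all hΓ).defl (mul_comm d d') he'

end GD
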