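import Pool.Agent.H5.GD.AdmFam

/-!
# Operations on families: tensor product, twist, descent, polarisation
-/

noncomputable section

namespace GD

open Complex NumberField

variable {S : Str} {F : Type} [Field F] [NumberField F]

theorem alg_sum {α : Type*} (s : Finset α) (f : α → ℂ) (h : ∀ i ∈ s, IsAlgebraic ℚ (f i)) :
    IsAlgebraic ℚ (∑ i ∈ s, f i) := by
  have h1 : ∑ i ∈ s, f i ∈ Qbar := sum_mem fun i hi => mem_algebraicClosure_iff.2 (h i hi)
  exact mem_algebraicClosure_iff.1 h1

theorem bilin_expand {α β : Type*} [Fintype α] [Fintype β] {V W U : Type*} [AddCommGroup V]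
    [AddCommGroup W] [AddCommGroup U] [Module ℂ V] [Module ℂ W] [Module ℂ U]
    (μ : V →ₗ[ℂ] W →ₗ[ℂ] U) (a : α → ℂ) (x : α → V) (b : β → ℂ) (y : β → W) :
    μ (∑ i, a i • x i) (∑ k, b k • y k) = ∑ i, ∑ k, (a i * b k) • μ (x i) (y k) := by
  have h1 : μ (∑ i, a i • x i) = ∑ i, a i • μ (x i) := by
    rw [map_sum]
    exact Finset.sum_congr rfl fun i _ => map_smul _ _ _
  rw [h1, LinearMap.sum_apply]
  refine Finset.sum_congr rfl fun i _ => ?_
  rw [LinearMap.smul_apply, map_sum, Finset.smul_sum]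
  exact Finset.sum_congr rfl fun k _ => by rw [map_smul, smul_smul]

theorem bilin_smul {V W U : Type*} [AddCommGroup V]
    [AddCommGroup W] [AddCommGroup U] [Module ℂ V] [Module ℂ W] [Module ℂ U]
    (μ : V →ₗ[ℂ] W →ₗ[ℂ] U) (a b : ℂ) (x : V) (y : W) :
    μ (a • x) (b • y) = (a * b) • μ x y := by
  rw [map_smul μ a x, LinearMap.smul_apply, map_smul, smul_smul]

/-- Expansion of the eigenvectors in rational vectors. -/
theorem Fam.expand (f : Fam S F) (σ : F →+* ℂ) :
    f.v σ = ∑ i, σ (bad F i) • ∑ τ : F →+* ℂ, τ (bas F i) • f.v τ :=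
  recover F f.v σ

/-- Tensor product of two families. -/
theorem Fam.tensor {T R : Str} (f : Fam S F) (g : Fam T F) (μ : S.W →ₗ[ℂ] T.W →ₗ[ℂ] R.W)
    (hinj : Function.Injective (TensorProduct.lift μ))
    (hB : ∀ x ∈ S.B, ∀ y ∈ T.B, μ x y ∈ R.B) (hD : ∀ x ∈ S.D, ∀ y ∈ T.D, μ x y ∈ R.D)
    (hH : ∀ p q, ∀ x ∈ S.hodge p, ∀ y ∈ T.hodge q, μ x y ∈ R.hodge (p + q)) :
    ∃ h : Fam R F, h.c = (fun σ => f.c σ * g.c σ) ∧ h.p = (fun σ => f.p σ + g.p σ) := by
  classical
  let h : Fam R F :=
    { v := fun σ => μ (f.v σ) (g.v σ)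
      c := fun σ => f.c σ * g.c σ
      p := fun σ => f.p σ + g.p σ
      lin := by
        have h1 := LinearIndependent.tmul_of_flat_left f.lin g.lin
        have h2 := h1.map' (TensorProduct.lift μ) (LinearMap.ker_eq_bot.2 hinj)
        have h3 := h2.comp (fun σ : F →+* ℂ => (σ, σ)) (fun σ τ hst => (Prod.ext_iff.1 hst).1)
        exact h3
      rat := by
        intro x
        have key : ∑ σ : F →+* ℂ, σ x • μ (f.v σ) (g.v σ)
            = ∑ i, ∑ k, ((Algebra.trace ℚ F (x * bad F i * bad F k) : ℚ) : ℂ) •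
              μ (∑ τ : F →+* ℂ, τ (bas F i) • f.v τ) (∑ τ : F →+* ℂ, τ (bas F k) • g.v τ) := by
          have h1 : ∀ σ : F →+* ℂ, σ x • μ (f.v σ) (g.v σ) = ∑ i, ∑ k,
              σ (x * bad F i * bad F k) •
              μ (∑ τ : F →+* ℂ, τ (bas F i) • f.v τ) (∑ τ : F →+* ℂ, τ (bas F k) • g.v τ) := by
            intro σ
            conv_lhs => rw [f.expand σ, g.expand σ]
            rw [bilin_expand, Finset.smul_sum]
            refine Finset.sum_congr rfl fun i _ => ?_
            rw [Finset.smul_sum]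
            refine Finset.sum_congr rfl fun k _ => ?_
            rw [smul_smul, map_mul, map_mul, mul_assoc]
          simp only [h1]
          rw [Finset.sum_comm]
          refine Finset.sum_congr rfl fun i _ => ?_
          rw [Finset.sum_comm]
          refine Finset.sum_congr rfl fun k _ => ?_
          rw [← Finset.sum_smul, trace_sum]
        rw [key]
        exact Submodule.sum_mem _ fun i _ => Submodule.sum_mem _ fun k _ =>
          R.B_smul _ (hB _ (f.rat _) _ (g.rat _))
      hdg := fun σ => hH _ _ _ (f.hdg σ) _ (g.hdg σ)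
      c_ne := fun σ => mul_ne_zero (f.c_ne σ) (g.c_ne σ)
      dR := fun σ => by
        have h1 := hD _ (f.dR σ) _ (g.dR σ)
        rwa [bilin_smul] at h1 }
  exact ⟨h, rfl, rfl⟩

/-- Twist of a family by an automorphism of the field. -/
theorem Fam.twist (f : Fam S F) (g : F ≃+* F) :
    ∃ h : Fam S F, h.c = (fun σ => f.c (σ.comp g.toRingHom)) ∧
      h.p = (fun σ => f.p (σ.comp g.toRingHom)) := by
  classical
  let e : (F →+* ℂ) ≃ (F →+* ℂ) :=
    { toFun := fun σ => σ.comp g.toRingHom
      invFun := fun σ => σ.comp g.symm.toRingHom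
      left_inv := fun σ => by ext x; simp
      right_inv := fun σ => by ext x; simp }
  let h : Fam S F :=
    { v := fun σ => f.v (σ.comp g.toRingHom)
      c := fun σ => f.c (σ.comp g.toRingHom)
      p := fun σ => f.p (σ.comp g.toRingHom)
      lin := f.lin.comp e e.injective
      rat := by
        intro x
        have h1 := f.rat (g.symm x)
        rw [← Equiv.sum_comp e] at h1
        convert h1 using 2
        rename_i σ _
        simp [e]
      hdg := fun σ => f.hdg _
      c_ne := fun σ => f.c_ne _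
      dR := fun σ => f.dR _ }
  exact ⟨h, rfl, rfl⟩

/-- Extension of embeddings. -/
theorem exists_extend {K : Type} [Field K] [NumberField K] (i : K →+* F) (τ : K →+* ℂ) :
    ∃ σ : F →+* ℂ, σ.comp i = τ := by
  let : Algebra K F := i.toAlgebra
  let : Algebra K ℂ := τ.toAlgebra
  have : Algebra.IsAlgebraic K F := by
    have : IsScalarTower ℚ K F := IsScalarTower.of_algebraMap_eq' (Subsingleton.elim _ _)
    exact Algebra.IsAlgebraic.tower_top (K := ℚ) K
  let φ : F →ₐ[K] ℂ := IsAlgClosed.lift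
  refine ⟨φ.toRingHom, ?_⟩
  ext x
  exact φ.commutes x

/-- Descent of a family to a subfield. -/
theorem Fam.descend (f : Fam S F) {K : Type} [Field K] [NumberField K] (i : K →+* F)
    (hp : ∀ σ τ : F →+* ℂ, σ.comp i = τ.comp i → f.p σ = f.p τ)
    (hc : ∀ σ τ : F →+* ℂ, σ.comp i = τ.comp i → Sim (f.c σ) (f.c τ)) :
    ∃ h : Fam S K, ∀ σ, h.p (σ.comp i) = f.p σ ∧ Sim (h.c (σ.comp i)) (f.c σ) := by
  classical
  choose ext hext using exists_extend (F := F) i
  let h : Fam S K :=
    { v := fun τ => ∑ σ : F →+* ℂ, if σ.comp i = τ then f.v σ else 0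
      c := fun τ => f.c (ext τ)
      p := fun τ => f.p (ext τ)
      lin := by
        rw [Fintype.linearIndependent_iff]
        intro a ha τ
        have h1 : ∑ σ : F →+* ℂ, a (σ.comp i) • f.v σ = 0 := by
          rw [← ha]
          simp only [Finset.smul_sum, smul_ite, smul_zero]
          rw [Finset.sum_comm]
          refine Finset.sum_congr rfl fun σ _ => ?_
          rw [Finset.sum_ite_eq Finset.univ (σ.comp i) (fun τ => a τ • f.v σ), if_pos (Finset.mem_univ _)]
        have h2 := Fintype.linearIndependent_iff.1 f.lin _ h1 (ext τ)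
        rwa [hext] at h2
      rat := by
        intro x
        have h1 := f.rat (i x)
        convert h1 using 1
        simp only [Finset.smul_sum, smul_ite, smul_zero]
        rw [Finset.sum_comm]
        refine Finset.sum_congr rfl fun σ _ => ?_
        rw [Finset.sum_ite_eq Finset.univ (σ.comp i) (fun τ => τ x • f.v σ), if_pos (Finset.mem_univ _)]
        rfl
      hdg := by
        intro τ
        refine Submodule.sum_mem _ fun σ _ => ?_
        by_cases hσ : σ.comp i = τ
        · rw [if_pos hσ]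
          have := hp σ (ext τ) (by rw [hσ, hext])
          rw [← this]
          exact f.hdg σ
        · rw [if_neg hσ]
          exact zero_mem _
      c_ne := fun τ => f.c_ne _
      dR := by
        intro τ
        rw [Finset.smul_sum]
        refine Submodule.sum_mem _ fun σ _ => ?_
        by_cases hσ : σ.comp i = τ
        · rw [if_pos hσ]
          have h1 := hc (ext τ) σ (by rw [hσ, hext])
          have h2 := S.D_smul h1.2.2 (f.dR σ)
          rwa [smul_smul, div_mul_cancel₀ _ h1.2.1] at h2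
        · rw [if_neg hσ, smul_zero]
          exact zero_mem _ }
  refine ⟨h, fun σ => ⟨?_, ?_⟩⟩
  · exact hp _ _ (hext _)
  · exact hc _ _ (hext _)

/-- Complex conjugation exchanges conjugate eigenvectors. -/
theorem Fam.conj_v (f : Fam S F) (σ : F →+* ℂ) :
    S.conj (f.v (ComplexEmbedding.conjugate σ)) = f.v σ := by
  classical
  have key : ∀ σ : F →+* ℂ, S.conj (f.v (ComplexEmbedding.conjugate σ)) - f.v σ = 0 := by
    refine emb_lin F (fun σ => S.conj (f.v (ComplexEmbedding.conjugate σ)) - f.v σ) ?_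
    intro x
    simp only [smul_sub, Finset.sum_sub_distrib]
    have h1 := S.conj_B _ (f.rat x)
    rw [sub_eq_zero]
    conv_rhs => rw [← h1]
    rw [map_sum]
    let e : (F →+* ℂ) ≃ (F →+* ℂ) :=
      { toFun := fun σ => ComplexEmbedding.conjugate σ
        invFun := fun σ => ComplexEmbedding.conjugate σ
        left_inv := fun σ => by ext x; simp [ComplexEmbedding.conjugate]
        right_inv := fun σ => by ext x; simp [ComplexEmbedding.conjugate] }
    rw [← Equiv.sum_comp e (fun τ => S.conj (τ x • f.v τ))]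
    refine Finset.sum_congr rfl fun τ _ => ?_
    rw [map_smulₛₗ]
    congr 1
    simp [e, ComplexEmbedding.conjugate]
  exact sub_eq_zero.1 (key σ)

theorem Str.hodge_eq (S : Str) {w : S.W} (hw : w ≠ 0) {p q : ℕ} (hp : w ∈ S.hodge p)
    (hq : w ∈ S.hodge q) : p = q := by
  by_contra hne
  have hind := S.hodge_internal.submodule_iSupIndep
  have := (hind p).le_bot ⟨hp, Submodule.mem_iSup_of_mem q (Submodule.mem_iSup_of_mem
    (fun h => hne h.symm) hq)⟩
  exact hw (by simpa using this)

theorem Fam.p_le (f : Fam S F) (σ : F →+* ℂ) : f.p σ ≤ S.wt := by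
  by_contra hcon
  push Not at hcon
  have h1 := f.hdg σ
  rw [S.hodge_large _ hcon] at h1
  exact f.v_ne σ (by simpa using h1)

/-- Hodge symmetry. -/
theorem Fam.p_add (f : Fam S F) (σ : F →+* ℂ) :
    f.p σ + f.p (ComplexEmbedding.conjugate σ) = S.wt := by
  have h1 := S.hodge_conj _ (f.p_le (ComplexEmbedding.conjugate σ)) _
    (f.hdg (ComplexEmbedding.conjugate σ))
  rw [f.conj_v] at h1
  have h2 := S.hodge_eq (f.v_ne σ) (f.hdg σ) h1
  have h3 := f.p_le (ComplexEmbedding.conjugate σ)
  omega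

/-- The polarisation relation between conjugate periods. -/
theorem Fam.pol (f : Fam S F) (P : Pol S) (σ : F →+* ℂ) :
    Sim (f.c σ * f.c (ComplexEmbedding.conjugate σ)) ((2 * Real.pi * I) ^ S.wt) := by
  have hcv : f.v (ComplexEmbedding.conjugate σ) = S.conj (f.v σ) := by
    have := f.conj_v (ComplexEmbedding.conjugate σ)
    rw [← this]
    congr 2
    ext x
    simp [ComplexEmbedding.conjugate]
  have hne : P.E (f.v σ) (f.v (ComplexEmbedding.conjugate σ)) ≠ 0 := by
    rw [hcv]
    obtain ⟨r, hr, hE⟩ := P.pos _ (f.p_le σ) _ (f.hdg σ) (f.v_ne σ)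
    intro h0
    rw [h0, mul_zero] at hE
    have : (r : ℂ) ≠ 0 := by exact_mod_cast hr.ne'
    exact this hE.symm
  have halg : IsAlgebraic ℚ (P.E (f.v σ) (f.v (ComplexEmbedding.conjugate σ))) := by
    rw [f.expand σ, f.expand (ComplexEmbedding.conjugate σ), bilin_expand]
    refine alg_sum _ _ fun i _ => alg_sum _ _ fun k _ => ?_
    refine IsAlgebraic.mul (IsAlgebraic.mul (emb_alg F σ _) (emb_alg F _ _)) ?_
    obtain ⟨q, hq⟩ := P.rat _ (f.rat (bas F i)) _ (f.rat (bas F k))
    rw [hq, ← eq_ratCast (algebraMap ℚ ℂ)]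
    exact isAlgebraic_algebraMap q
  obtain ⟨a, ha, hE⟩ := P.dR _ (f.dR σ) _ (f.dR (ComplexEmbedding.conjugate σ))
  rw [bilin_smul, smul_eq_mul] at hE
  have hpi : (2 * (Real.pi : ℂ) * I) ^ S.wt ≠ 0 := by
    apply pow_ne_zero
    simp [Real.pi_ne_zero]
  have hcc : f.c σ * f.c (ComplexEmbedding.conjugate σ) ≠ 0 :=
    mul_ne_zero (f.c_ne _) (f.c_ne _)
  refine ⟨hcc, hpi, ?_⟩
  have : f.c σ * f.c (ComplexEmbedding.conjugate σ) / (2 * (Real.pi : ℂ) * I) ^ S.wt
      = a / P.E (f.v σ) (f.v (ComplexEmbedding.conjugate σ)) := by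
    rw [div_eq_div_iff hpi hne, hE, mul_comm]
  rw [this, div_eq_mul_inv]
  exact ha.mul halg.inv

end GD
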