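import Pool.Agent.H5.GD.Ops

/-!
# Realised period data in a class of structures
-/

noncomputable section

namespace GD

open Complex NumberField

/-- The data `(m, c, p)` (weight, periods, Hodge types) are realised inside the class `C`. -/
def Rz (C : Str → Prop) (F : Type) [Field F] [NumberField F] (m : ℕ) (c : (F →+* ℂ) → ℂ)
    (p : (F →+* ℂ) → ℕ) : Prop :=
  ∃ S, C S ∧ S.wt = m ∧ ∃ f : Fam S F, f.c = c ∧ f.p = p

variable {C : Str → Prop} {F : Type} [Field F] [NumberField F]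

theorem Rz.mul (hK : Kunneth C) {m m' : ℕ} {c c' : (F →+* ℂ) → ℂ} {p p' : (F →+* ℂ) → ℕ}
    (h : Rz C F m c p) (h' : Rz C F m' c' p') :
    Rz C F (m + m') (fun σ => c σ * c' σ) (fun σ => p σ + p' σ) := by
  obtain ⟨S, hS, rfl, f, rfl, rfl⟩ := h
  obtain ⟨T, hT, rfl, g, rfl, rfl⟩ := h'
  obtain ⟨R, hR, hwt, μ, h1, h2, h3, h4⟩ := hK S T hS hT
  obtain ⟨k, hk1, hk2⟩ := f.tensor g μ h1 h2 h3 h4
  exact ⟨R, hR, hwt, k, hk1, hk2⟩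

theorem Rz.prod (hK : Kunneth C) {α : Type*} {s : Finset α} (hs : s.Nonempty) (m : α → ℕ)
    (c : α → (F →+* ℂ) → ℂ) (p : α → (F →+* ℂ) → ℕ) (h : ∀ i ∈ s, Rz C F (m i) (c i) (p i)) :
    Rz C F (∑ i ∈ s, m i) (fun σ => ∏ i ∈ s, c i σ) (fun σ => ∑ i ∈ s, p i σ) := by
  classical
  induction hs using Finset.Nonempty.cons_induction with
  | singleton a =>
    simpa using h a (Finset.mem_singleton_self a)
  | cons a s ha hs ih =>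
    have h1 := Rz.mul hK (h a (Finset.mem_cons_self a s))
      (ih fun i hi => h i (Finset.mem_cons.2 (Or.inr hi)))
    simpa only [Finset.sum_cons, Finset.prod_cons] using h1

theorem Rz.twist {m : ℕ} {c : (F →+* ℂ) → ℂ} {p : (F →+* ℂ) → ℕ} (h : Rz C F m c p)
    (g : F ≃+* F) :
    Rz C F m (fun σ => c (σ.comp g.toRingHom)) (fun σ => p (σ.comp g.toRingHom)) := by
  obtain ⟨S, hS, rfl, f, rfl, rfl⟩ := h
  obtain ⟨k, hk1, hk2⟩ := f.twist g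
  exact ⟨S, hS, rfl, k, hk1, hk2⟩

theorem Rz.descend {m : ℕ} {c : (F →+* ℂ) → ℂ} {p : (F →+* ℂ) → ℕ} (h : Rz C F m c p)
    {K : Type} [Field K] [NumberField K] (i : K →+* F)
    (hp : ∀ σ τ : F →+* ℂ, σ.comp i = τ.comp i → p σ = p τ)
    (hc : ∀ σ τ : F →+* ℂ, σ.comp i = τ.comp i → Sim (c σ) (c τ)) :
    ∃ c' p', Rz C K m c' p' ∧ ∀ σ, p' (σ.comp i) = p σ ∧ Sim (c' (σ.comp i)) (c σ) := by
  obtain ⟨S, hS, rfl, f, rfl, rfl⟩ := h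
  obtain ⟨k, hk⟩ := f.descend i hp hc
  exact ⟨k.c, k.p, ⟨S, hS, rfl, k, rfl, rfl⟩, hk⟩

theorem Rz.c_ne {m : ℕ} {c : (F →+* ℂ) → ℂ} {p : (F →+* ℂ) → ℕ} (h : Rz C F m c p)
    (σ : F →+* ℂ) : c σ ≠ 0 := by
  obtain ⟨S, hS, rfl, f, rfl, rfl⟩ := h
  exact f.c_ne σ

theorem Rz.p_add {m : ℕ} {c : (F →+* ℂ) → ℂ} {p : (F →+* ℂ) → ℕ} (h : Rz C F m c p)
    (σ : F →+* ℂ) : p σ + p (ComplexEmbedding.conjugate σ) = m := by
  obtain ⟨S, hS, rfl, f, rfl, rfl⟩ := h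
  exact f.p_add σ

theorem Rz.pol (hP : ∀ S, C S → Nonempty (Pol S)) {m : ℕ} {c : (F →+* ℂ) → ℂ}
    {p : (F →+* ℂ) → ℕ} (h : Rz C F m c p) (σ : F →+* ℂ) :
    Sim (c σ * c (ComplexEmbedding.conjugate σ)) ((2 * Real.pi * I) ^ m) := by
  obtain ⟨S, hS, rfl, f, rfl, rfl⟩ := h
  obtain ⟨P⟩ := hP S hS
  exact f.pol P σ

end GD
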