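import Pool.Agent.H5.GD.Gam

/-!
# The Gross-Deligne relation for realised data
-/

noncomputable section

namespace GD

open Complex NumberField

/-- The class of `Γ(1 - x)`. -/
def gam {V : Type*} (cls : ℂ → V) (x : ℚ) : V := cls ((Real.Gamma (1 - (x : ℝ)) : ℝ) : ℂ)

theorem tsum_even {M : Type*} [AddCommGroup M] [Module ℚ M] (d : ℕ) [NeZero d] (ψ : ℚ → M)
    (ε : ZMod d → ℚ) (h : ∀ a, ε (-a) = ε a) (l : (ZMod d)ˣ) :
    tsum' d ψ ε (-l) = tsum' d ψ ε l := by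
  unfold tsum'
  rw [← Equiv.sum_comp (Equiv.neg (ZMod d))]
  refine Finset.sum_congr rfl fun b _ => ?_
  rw [Equiv.neg_apply, h, Units.val_neg, neg_mul_neg]

theorem gammaProd_ne (d : ℕ) [NeZero d] (ε : ZMod d → ℚ) (l : (ZMod d)ˣ) :
    ((gammaProd d ε l : ℝ) : ℂ) ≠ 0 := by
  have hd : 0 < d := NeZero.pos d
  have hdR : (0 : ℝ) < d := by exact_mod_cast hd
  have hpos : ∀ a : ZMod d, 0 < Real.Gamma (1 - (a.val : ℝ) / d) := by
    intro a
    apply Real.Gamma_pos_of_pos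
    rw [sub_pos, div_lt_one hdR]
    exact_mod_cast ZMod.val_lt a
  have : 0 < gammaProd d ε l := Finset.prod_pos fun a _ => Real.rpow_pos_of_pos (hpos a) _
  exact_mod_cast this.ne'

theorem tsum_id (d : ℕ) [NeZero d] (ε : ZMod d → ℚ) (l : (ZMod d)ˣ) :
    (d : ℚ) * tsum' d (fun x => x) ε l = ∑ a, ε a * (((l : ZMod d) * a).val : ℚ) := by
  unfold tsum'
  rw [Finset.mul_sum]
  refine Finset.sum_congr rfl fun a _ => ?_
  have : (d : ℚ) ≠ 0 := by exact_mod_cast NeZero.ne d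
  rw [smul_eq_mul, mul_comm a]
  field_simp

theorem val_add_neg (d : ℕ) [NeZero d] (a : ZMod d) (ha : a ≠ 0) :
    ((a.val : ℚ) / d) + (((-a).val : ℚ) / d) = 1 := by
  have hd : 0 < d := NeZero.pos d
  have hav' : a.val < d := ZMod.val_lt a
  have hneg : (-a).val = d - a.val := by
    have : NeZero a := ⟨ha⟩
    exact ZMod.val_neg_of_ne_zero a
  rw [hneg, Nat.cast_sub hav'.le]
  have : (d : ℚ) ≠ 0 := by exact_mod_cast NeZero.ne d
  field_simp
  ring

section gamma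

variable {V : Type*} [AddCommGroup V] [Module ℚ V] {cls : ℂ → V} (hΓ : GammaSpec V cls)

include hΓ

theorem cls_one : cls 1 = 0 := (hΓ.zero_iff 1 one_ne_zero).2 isAlgebraic_one

theorem cls_of_sim {x y : ℂ} (h : Sim x y) : cls x = cls y := by
  have h1 : cls (x / y) = 0 := (hΓ.zero_iff _ (div_ne_zero h.1 h.2.1)).2 h.2.2
  have h2 := hΓ.mul (x / y) y (div_ne_zero h.1 h.2.1) h.2.1
  rw [div_mul_cancel₀ _ h.2.1, h1, zero_add] at h2
  exact h2

theorem sim_of_cls {x y : ℂ} (hx : x ≠ 0) (hy : y ≠ 0) (h : cls x = cls y) : Sim x y := by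
  refine ⟨hx, hy, ?_⟩
  have h2 := hΓ.mul (x / y) y (div_ne_zero hx hy) hy
  rw [div_mul_cancel₀ _ hy, h] at h2
  have h3 : cls (x / y) = 0 := add_eq_right.1 h2.symm
  exact (hΓ.zero_iff _ (div_ne_zero hx hy)).1 h3

theorem cls_prod {α : Type*} (s : Finset α) (x : α → ℂ) (hx : ∀ i ∈ s, x i ≠ 0) :
    cls (∏ i ∈ s, x i) = ∑ i ∈ s, cls (x i) := by
  classical
  induction s using Finset.induction_on with
  | empty => simpa using cls_one hΓ
  | insert a s ha ih =>
    rw [Finset.prod_insert ha, Finset.sum_insert ha, hΓ.mul, ih]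
    · intro i hi
      exact hx i (Finset.mem_insert_of_mem hi)
    · exact hx a (Finset.mem_insert_self a s)
    · exact Finset.prod_ne_zero_iff.2 fun i hi => hx i (Finset.mem_insert_of_mem hi)

theorem cls_pow (x : ℂ) (hx : x ≠ 0) (n : ℕ) : cls (x ^ n) = (n : ℚ) • cls x := by
  induction n with
  | zero => simpa using cls_one hΓ
  | succ n ih =>
    rw [pow_succ, hΓ.mul _ _ (pow_ne_zero n hx) hx, ih]
    push_cast
    rw [add_smul, one_smul]

theorem cls_two_pi_I (n : ℕ) :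
    cls ((2 * Real.pi * I) ^ n) = (n : ℚ) • cls ((Real.pi : ℝ) : ℂ) := by
  have hpi : (Real.pi : ℂ) ≠ 0 := by exact_mod_cast Real.pi_ne_zero
  have h2 : (2 * I : ℂ) ≠ 0 := by simp
  have h1 : (2 * (Real.pi : ℂ) * I) = (2 * I) * Real.pi := by ring
  have h3 : cls (2 * I) = 0 := by
    refine (hΓ.zero_iff _ h2).2 ?_
    have hI : IsAlgebraic ℚ I := by
      refine ⟨Polynomial.X ^ 2 + 1, ?_, ?_⟩
      · intro h
        have := congrArg (Polynomial.eval 0) h
        simp at this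
      · simp
    have h4 : IsAlgebraic ℚ (2 : ℂ) := by
      have := isAlgebraic_algebraMap (R := ℚ) (A := ℂ) (2 : ℚ)
      simpa using this
    exact h4.mul hI
  rw [cls_pow hΓ _ (by rw [h1]; exact mul_ne_zero h2 hpi), h1, hΓ.mul _ _ h2 hpi, h3, zero_add]

/-- Reflection formula. -/
theorem gam_reflect (d : ℕ) [NeZero d] (a : ZMod d) (ha : a ≠ 0) :
    gam cls ((a.val : ℚ) / d) + gam cls (((-a).val : ℚ) / d) = cls ((Real.pi : ℝ) : ℂ) := by
  have hd : 0 < d := NeZero.pos d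
  have hdR : (0 : ℝ) < d := by exact_mod_cast hd
  have hav : 0 < a.val := Nat.pos_of_ne_zero fun h => ha ((ZMod.val_eq_zero a).1 h)
  have hav' : a.val < d := ZMod.val_lt a
  have hneg : (-a).val = d - a.val := by
    have : NeZero a := ⟨ha⟩
    exact ZMod.val_neg_of_ne_zero a
  set x : ℝ := (a.val : ℝ) / d with hx
  have hx0 : 0 < x := div_pos (by exact_mod_cast hav) hdR
  have hx1 : x < 1 := (div_lt_one hdR).2 (by exact_mod_cast hav')
  have e1 : (((a.val : ℚ) / d : ℚ) : ℝ) = x := by push_cast; rfl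
  have e2 : ((((-a).val : ℚ) / d : ℚ) : ℝ) = 1 - x := by
    rw [hneg, Nat.cast_sub hav'.le]
    push_cast
    rw [hx]
    field_simp
  unfold gam
  rw [e1, e2]
  have hG1 : Real.Gamma (1 - x) ≠ 0 := (Real.Gamma_pos_of_pos (by linarith)).ne'
  have hG2 : Real.Gamma (1 - (1 - x)) ≠ 0 := (Real.Gamma_pos_of_pos (by linarith)).ne'
  rw [← hΓ.mul _ _ (by exact_mod_cast hG1) (by exact_mod_cast hG2), ← Complex.ofReal_mul]
  have h1 : Real.Gamma (1 - x) * Real.Gamma (1 - (1 - x)) = Real.pi / Real.sin (Real.pi * x) := by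
    have := Real.Gamma_mul_Gamma_one_sub x
    rw [← this]
    ring_nf
  have hsin : 0 < Real.sin (Real.pi * x) := by
    apply Real.sin_pos_of_pos_of_lt_pi
    · exact mul_pos Real.pi_pos hx0
    · nlinarith [Real.pi_pos]
  have halg : IsAlgebraic ℚ ((Real.sin (Real.pi * x) : ℝ) : ℂ) := by
    have h2 := Real.isAlgebraic_sin_rat_mul_pi ((a.val : ℚ) / d)
    rw [e1, mul_comm] at h2
    have h3 : IsAlgebraic ℚ (Real.sin (Real.pi * x)) := (IsFractionRing.isAlgebraic_iff ℤ ℚ ℝ).1 h2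
    exact h3.algHom ((Algebra.ofId ℝ ℂ).restrictScalars ℚ)
  apply cls_of_sim hΓ
  rw [h1]
  have hpi : (Real.pi : ℂ) ≠ 0 := by exact_mod_cast Real.pi_ne_zero
  have hsin' : ((Real.sin (Real.pi * x) : ℝ) : ℂ) ≠ 0 := by exact_mod_cast hsin.ne'
  rw [Complex.ofReal_div]
  refine ⟨div_ne_zero hpi hsin', hpi, ?_⟩
  have h4 : (Real.pi : ℂ) / ((Real.sin (Real.pi * x) : ℝ) : ℂ) / Real.pi
      = (((Real.sin (Real.pi * x) : ℝ) : ℂ))⁻¹ := by
    field_simp
  rw [h4]
  exact halg.inv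

theorem gam_zero : gam cls 0 = 0 := by
  unfold gam
  rw [Rat.cast_zero, sub_zero, Real.Gamma_one, Complex.ofReal_one]
  exact cls_one hΓ

/-- The class of the gamma product. -/
theorem cls_gammaProd (d : ℕ) [NeZero d] (ε : ZMod d → ℚ) (l : (ZMod d)ˣ) :
    cls ((gammaProd d ε l : ℝ) : ℂ) = tsum' d (gam cls) ε l := by
  have hd : 0 < d := NeZero.pos d
  have hdR : (0 : ℝ) < d := by exact_mod_cast hd
  have hpos : ∀ a : ZMod d, 0 < Real.Gamma (1 - (a.val : ℝ) / d) := by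
    intro a
    apply Real.Gamma_pos_of_pos
    rw [sub_pos, div_lt_one hdR]
    exact_mod_cast ZMod.val_lt a
  unfold gammaProd
  rw [Complex.ofReal_prod, cls_prod hΓ]
  · rw [← tsum_eq, ← Finset.add_sum_erase Finset.univ _ (Finset.mem_univ (0 : ZMod d)),
      ZMod.val_zero, Nat.cast_zero, zero_div, gam_zero hΓ, smul_zero, zero_add]
    refine Finset.sum_congr rfl fun a _ => ?_
    rw [hΓ.rpow _ _ (hpos a)]
    unfold gam
    congr 4
    push_cast
    rfl
  · intro a _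
    exact_mod_cast (Real.rpow_pos_of_pos (hpos a) _).ne'

/-- The Koblitz-Ogus statement in the present notation. -/
theorem ko' (d : ℕ) [NeZero d] (ε ε' : ZMod d → ℚ)
    (h : ∀ l : (ZMod d)ˣ, tsum' d (fun x => x) ε l = tsum' d (fun x => x) ε' l)
    (l : (ZMod d)ˣ) : tsum' d (gam cls) ε l = tsum' d (gam cls) ε' l := by
  have h1 := hΓ.ko d (fun a => ε a - ε' a) (fun l => by
    rw [← tsum_id, tsum_sub, h, sub_self, mul_zero]) l
  rw [← sub_eq_zero, ← tsum_sub, ← tsum_eq, ← h1]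
  refine Finset.sum_congr rfl fun a _ => ?_
  unfold gam
  congr 4
  push_cast
  rfl

theorem ex' (d : ℕ) [NeZero d] (hd : 3 ≤ d) (m : ℚ) (p : (ZMod d)ˣ → ℚ)
    (hp : ∀ l, p l + p (-l) = m) : ∃ ε : ZMod d → ℚ, ∀ l, tsum' d (fun x => x) ε l = p l := by
  obtain ⟨ε, hε⟩ := hΓ.ex d hd m p hp
  refine ⟨ε, fun l => ?_⟩
  have h1 := hε l
  rw [← tsum_id] at h1
  have : (d : ℚ) ≠ 0 := by exact_mod_cast NeZero.ne d
  exact (mul_left_cancel₀ this h1).symm

/-- Oddness of the gamma side. -/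
theorem gam_odd (d : ℕ) [NeZero d] (m : ℚ) (ε : ZMod d → ℚ) (l : (ZMod d)ˣ)
    (hm : tsum' d (fun x => x) ε l + tsum' d (fun x => x) ε (-l) = m) :
    tsum' d (gam cls) ε l + tsum' d (gam cls) ε (-l) = m • cls ((Real.pi : ℝ) : ℂ) := by
  have h1 := tsum_neg (fun x : ℚ => x) ε l 1 rfl (fun a ha => val_add_neg d a ha)
  have h2 := tsum_neg (gam cls) ε l _ (gam_zero hΓ) (fun a ha => gam_reflect hΓ d a ha)
  rw [h2]
  congr 1
  rw [hm, smul_eq_mul, mul_one] at h1
  exact h1.symm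

/-- The gamma side for constant types. -/
theorem gam_const (d : ℕ) [NeZero d] (r : ℚ) (ε : ZMod d → ℚ)
    (h : ∀ l, tsum' d (fun x => x) ε l = r) (hd : 2 ≤ d) (l : (ZMod d)ˣ) :
    tsum' d (gam cls) ε l = r • cls ((Real.pi : ℝ) : ℂ) := by
  classical
  have hd1 : ((d : ℚ) - 1) ≠ 0 := by
    have : (2 : ℚ) ≤ d := by exact_mod_cast hd
    intro h
    linarith
  let ε₀ : ZMod d → ℚ := fun a => if a = 0 then 0 else 2 * r / (d - 1)
  have hinv : ∀ a, ε₀ (-a) = ε₀ a := by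
    intro a
    simp only [ε₀, neg_eq_zero]
  have hsum : ∑ a ∈ Finset.univ.erase (0 : ZMod d), ε₀ a = 2 * r := by
    have h1 : ∀ a ∈ Finset.univ.erase (0 : ZMod d), ε₀ a = 2 * r / (d - 1) := by
      intro a ha
      simp only [ε₀, if_neg (Finset.mem_erase.1 ha).1]
    rw [Finset.sum_congr rfl h1, Finset.sum_const, Finset.card_erase_of_mem (Finset.mem_univ _),
      Finset.card_univ, ZMod.card, nsmul_eq_mul, Nat.cast_sub (by omega)]
    push_cast
    field_simp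
  have h1 : ∀ l, tsum' d (fun x => x) ε₀ l = r := by
    intro l
    have h1 := tsum_neg (fun x : ℚ => x) ε₀ l 1 rfl (fun a ha => val_add_neg d a ha)
    rw [tsum_even _ _ _ hinv, hsum, smul_eq_mul, mul_one] at h1
    linarith
  have h2 : tsum' d (gam cls) ε₀ l = r • cls ((Real.pi : ℝ) : ℂ) := by
    have h2 := tsum_neg (gam cls) ε₀ l _ (gam_zero hΓ) (fun a ha => gam_reflect hΓ d a ha)
    rw [tsum_even _ _ _ hinv, hsum, mul_smul, ← two_smul ℚ] at h2
    have h3 : (2 : ℚ) • (tsum' d (gam cls) ε₀ l - r • cls ((Real.pi : ℝ) : ℂ)) = 0 := by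
      rw [smul_sub, h2, sub_self]
    rcases smul_eq_zero.1 h3 with h4 | h4
    · norm_num at h4
    · exact sub_eq_zero.1 h4
  rw [← h2]
  exact ko' hΓ d _ _ (fun l => by rw [h, h1]) l

end gamma

end GD
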