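import Pool.Agent.H5.GD.Cyc

/-!
# The subfield attached to a subgroup of the units
-/

noncomputable section

namespace GD

open Complex NumberField

variable {F : Type} [Field F] [NumberField F]

theorem exists_subfield {d : ℕ} [NeZero d] (e : F →+* ℂ) (he : ∀ x, e x ∈ cyc d)
    (N : Subgroup (ZMod d)ˣ) (hN : ∀ l, phi e he l = e → l ∈ N)
    (hc : IsCyclic ((ZMod d)ˣ ⧸ N)) :
    ∃ (K : Type) (_ : Field K) (_ : NumberField K) (i : K →+* F),
      (∀ l l', (phi e he l).comp i = (phi e he l').comp i ↔ l⁻¹ * l' ∈ N) ∧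
      IsGalois ℚ K ∧ IsCyclic (K ≃ₐ[ℚ] K) := by
  obtain ⟨G, hGs, hG⟩ := exists_G e he
  have := isAbelian_of e he
  let K : IntermediateField ℚ F := IntermediateField.fixedField (N.map G)
  have hKab : IsAbelianGalois ℚ K := IsAbelianGalois.tower_bot ℚ K F
  have hphiG : ∀ l l', (phi e he l).comp (G (l⁻¹ * l')).toRingEquiv.toRingHom = phi e he l' := by
    intro l l'
    rw [phi_comp_G e he G hG, mul_inv_cancel_left]
  refine ⟨K, inferInstance, inferInstance, algebraMap K F, ?_, ?_, ?_⟩
  · intro l l'
    have h1 : (phi e he l).comp (algebraMap K F) = (phi e he l').comp (algebraMap K F) ↔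
        G (l⁻¹ * l') ∈ K.fixingSubgroup := by
      rw [IntermediateField.mem_fixingSubgroup_iff]
      constructor
      · intro h x hx
        have h2 := congrArg (fun t => t (⟨x, hx⟩ : K)) h
        have h3 : phi e he l x = phi e he l' x := h2
        rw [← hphiG l l'] at h3
        exact ((phi e he l).injective h3).symm
      · intro h
        ext x
        have h2 := h x x.2
        change phi e he l (x : F) = phi e he l' (x : F)
        rw [← hphiG l l']
        change phi e he l (x : F) = phi e he l (G (l⁻¹ * l') (x : F))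
        rw [h2]
    rw [h1, IntermediateField.fixingSubgroup_fixedField]
    constructor
    · rintro ⟨ν, hν, hν'⟩
      have h2 : G (ν⁻¹ * (l⁻¹ * l')) = 1 := by
        rw [map_mul, map_inv, hν', inv_mul_cancel]
      have h3 : ν⁻¹ * (l⁻¹ * l') ∈ N := by
        apply hN
        have := phi_comp_G e he G hG 1 (ν⁻¹ * (l⁻¹ * l'))
        rw [one_mul, h2, phi_one] at this
        rw [← this]
        ext x
        rfl
      have h4 := N.mul_mem hν h3
      rwa [mul_inv_cancel_left] at h4
    · intro h
      exact ⟨_, h, rfl⟩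
  · infer_instance
  · -- cyclicity
    let ψ : (ZMod d)ˣ →* (K ≃ₐ[ℚ] K) := (AlgEquiv.restrictNormalHom K).comp G
    have hψs : Function.Surjective ψ :=
      (AlgEquiv.restrictNormalHom_surjective F).comp hGs
    have hψN : N ≤ ψ.ker := by
      intro ν hν
      rw [MonoidHom.mem_ker]
      ext x
      have h1 : algebraMap K F ((G ν).restrictNormal K x) = G ν (algebraMap K F x) :=
        AlgEquiv.restrictNormal_commutes (G ν) K x
      change (algebraMap K F ((G ν).restrictNormal K x)) = _
      rw [h1]
      have h2 : (algebraMap K F x) ∈ IntermediateField.fixedField (N.map G) := x.2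
      rw [IntermediateField.mem_fixedField_iff] at h2
      exact h2 (G ν) ⟨ν, hν, rfl⟩
    let ψ' : ((ZMod d)ˣ ⧸ N) →* (K ≃ₐ[ℚ] K) := QuotientGroup.lift N ψ (fun x hx => hψN hx)
    have hψ's : Function.Surjective ψ' := by
      intro g
      obtain ⟨l, rfl⟩ := hψs g
      exact ⟨QuotientGroup.mk l, rfl⟩
    exact isCyclic_of_surjective ψ' hψ's

/-- The kernel of a character has a cyclic quotient. -/
theorem cyclic_quot_ker {d : ℕ} [NeZero d] (χ : (ZMod d)ˣ →* ℂˣ) :
    IsCyclic ((ZMod d)ˣ ⧸ χ.ker) := by
  have h1 := isCyclic_of_injective_ringHom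
    (((Units.coeHom ℂ).comp (QuotientGroup.kerLift χ)))
    (Units.val_injective.comp (QuotientGroup.kerLift_injective χ))
  exact h1

end GD
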